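import Pool.Agent.H43.PS.M09

/-!
# CH MajA: frequencies close to a rational number

Proof.  `F = FS (gP P1 P) S`, `M0 = 4L` (`|F(n)| ≤ 2 log n ≤ M0` for `n ≤ 4X`), `h = H/L^{E + A + 6}`, `α = a/c + β`.  For `n ∈ Win x H`: `1 = (1/h) ∫ 1_{|n - y| < h/2} dy`; so
`Mw F x H α = (1/h) ∫_{|y - x| ≤ (H + h)/2} ∑_{n ∈ Win x H ∩ Win y h} F(n) ee(n α) dy`, and `Win y h ⊆ Win x H` if `|y - x| ≤ (H - h)/2`: so `‖Mw F x H α‖ ≤ (1/h) ∫_{|y - x| ≤ H/2} ‖Mw F y h α‖ dy + 8 h M0` (`#Win y h ≤ h + 1 ≤ 2h`).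
`‖Mw F y h α‖ ≤ ‖Mw F y h (a/c)‖ + 2π |β| (h/2) · 2 h M0` (take out `ee(β y)`), `|β| h ≤ L^{-A-6}`.  Square, Cauchy-Schwarz: `‖Mw F x H α‖^2 ≤ 3 (H/h^2) ∫_{|y-x| ≤ H/2} ‖Mw F y h (a/c)‖^2 dy + (small) H^2 M0^2/L^{2A+12}·const`;
integrate over `x ∈ [X, 2X]` (Fubini): `3 (H^2/h^2) ∫_{[X - H/2, 2X + H/2]} ‖Mw F y h (a/c)‖^2 dy`; `[X, 2X]`: `maj_r` (`A + 2(..) + ..`: the factor is `1`: `3 (H^2/h^2) X h^2/L^{A+2}`); the rest has length `H`: `≤ 3 (H^2/h^2) H (2 h M0)^2 = 12 H^3 M0^2 ≤ X H^2/L^{A+2}`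
as `H ≤ X/L^κ`.  (`P^12 ≤ H` and `L^{E+A+6} ≤ P` give `P^11 ≤ h`.)
-/

set_option autoImplicit false

namespace Pool.Agent.H43.CH

open Finset MeasureTheory
open Pool.Agent.H53.MIX (VKw)
open Pool.Agent.H35.W (pb)
open Pool.Agent.H43.LM (gP Mw)

open Pool.Agent.H43.LM (Win)
open Pool.Agent.H91.PK (ee)

private theorem MajA_mem {x H : ℝ} (hH : 0 < H) (n : ℕ) : n ∈ Win x H ↔ |(n : ℝ) - x| < H / 2 := by
  unfold Win
  rw [mem_filter, Finset.mem_range]
  refine ⟨fun h => h.2, fun h => ⟨?_, h⟩⟩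
  have h1 := (abs_lt.1 h).2
  have h2 : (n : ℝ) < x + H := by linarith only [hH, h1]
  have h3 := Nat.le_ceil (x + H)
  have h4 : (n : ℝ) < (⌈x + H⌉₊ : ℝ) := by linarith only [hH, h1, h3]
  have h5 : n < ⌈x + H⌉₊ := by exact_mod_cast h4
  omega

private theorem MajA_card {x H : ℝ} (hH : 0 ≤ H) : ((Win x H).card : ℝ) ≤ H + 1 := by
  have h1 : Win x H ⊆ Ico ⌈x - H / 2⌉₊ (⌈x - H / 2⌉₊ + ⌈H⌉₊) := by
    intro n hn
    unfold Win at hn
    rw [mem_filter, abs_lt] at hn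
    obtain ⟨-, h1, h2⟩ := hn
    rw [mem_Ico]
    refine ⟨Nat.ceil_le.2 (by linarith only [h1]), ?_⟩
    have h3 := Nat.le_ceil (x - H / 2)
    have h4 := Nat.le_ceil H
    have h5 : (n : ℝ) < (⌈x - H / 2⌉₊ : ℝ) + (⌈H⌉₊ : ℝ) := by linarith only [h2, h3, h4]
    exact_mod_cast h5
  have h2 := card_le_card h1
  rw [Nat.card_Ico, Nat.add_sub_cancel_left] at h2
  have h3 : ((Win x H).card : ℝ) ≤ (⌈H⌉₊ : ℝ) := by exact_mod_cast h2
  have h4 := Nat.ceil_lt_add_one hH
  linarith only [h3, h4]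

private theorem MajA_norm (F : ℕ → ℝ) {M0 : ℝ} (hF : ∀ n, |F n| ≤ M0) (α : ℝ) (s : Finset ℕ) :
    ‖∑ n ∈ s, (F n : ℂ) * ee (n * α)‖ ≤ s.card * M0 := by
  refine (norm_sum_le _ _).trans ?_
  refine (Finset.sum_le_card_nsmul _ _ M0 fun n _ => ?_).trans (by simp)
  rw [norm_mul, Pool.Agent.H91.PK.LSa_norm_ee, mul_one, Complex.norm_real, Real.norm_eq_abs]
  exact hF n

private theorem MajA_Mw_le (F : ℕ → ℝ) {M0 : ℝ} (hM : 0 ≤ M0) (hF : ∀ n, |F n| ≤ M0) {x h : ℝ} (hh : 0 ≤ h) (α : ℝ) :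
    ‖Mw F x h α‖ ≤ (h + 1) * M0 :=
  (MajA_norm F hF α _).trans (mul_le_mul_of_nonneg_right (MajA_card hh) hM)

/-- the window sum as a sum of indicator functions -/
private theorem MajA_expr (F : ℕ → ℝ) {N : ℕ} (hN : ∀ n, N ≤ n → F n = 0) {H : ℝ} (hH : 0 < H) (x α : ℝ) :
    Mw F x H α = ∑ n ∈ range N, if |(n : ℝ) - x| < H / 2 then (F n : ℂ) * ee (n * α) else 0 := by
  rw [← Finset.sum_filter]
  unfold Mw
  symm
  apply Finset.sum_subset
  · intro n hn
    rw [mem_filter] at hn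
    exact (MajA_mem hH n).2 hn.2
  · intro n hn hn2
    have h1 := (MajA_mem hH n).1 hn
    have h2 : N ≤ n := by
      by_contra h3
      exact hn2 (mem_filter.2 ⟨Finset.mem_range.2 (by omega), h1⟩)
    rw [hN n h2]
    simp

private theorem MajA_mset (n : ℕ) (h : ℝ) : MeasurableSet {y : ℝ | |(n : ℝ) - y| < h} := by
  apply measurableSet_lt _ measurable_const
  fun_prop

private theorem MajA_meas (F : ℕ → ℝ) {N : ℕ} (hN : ∀ n, N ≤ n → F n = 0) {H : ℝ} (hH : 0 < H) (α : ℝ) :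
    Measurable fun x => Mw F x H α := by
  have h1 : (fun x => Mw F x H α) = fun x => ∑ n ∈ range N,
      if |(n : ℝ) - x| < H / 2 then (F n : ℂ) * ee (n * α) else 0 := by
    funext x
    exact MajA_expr F hN hH x α
  rw [h1]
  refine Finset.measurable_sum _ fun n _ => ?_
  exact Measurable.ite (MajA_mset n (H / 2)) measurable_const measurable_const

private theorem MajA_ii {f : ℝ → ℂ} (hf : Measurable f) {C : ℝ} (hC : ∀ y, ‖f y‖ ≤ C) (a b : ℝ) :
    IntervalIntegrable f volume a b := by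
  rw [intervalIntegrable_iff, Set.uIoc]
  exact Integrable.of_bound hf.aestronglyMeasurable C (Filter.Eventually.of_forall hC)

private theorem MajA_iir {f : ℝ → ℝ} (hf : Measurable f) {C : ℝ} (hC : ∀ y, ‖f y‖ ≤ C) (a b : ℝ) :
    IntervalIntegrable f volume a b := by
  rw [intervalIntegrable_iff, Set.uIoc]
  exact Integrable.of_bound hf.aestronglyMeasurable C (Filter.Eventually.of_forall hC)

/-- one indicator function -/
private theorem MajA_one (n : ℕ) {h a b : ℝ} (hh : 0 < h) (ha : a ≤ n - h / 2) (hb : (n : ℝ) + h / 2 ≤ b) (c : ℂ) :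
    ∫ y in a..b, (if |(n : ℝ) - y| < h / 2 then c else 0) = h * c := by
  have hab : a ≤ b := by linarith only [hh, ha, hb]
  rw [intervalIntegral.integral_of_le hab]
  have h1 : (fun y : ℝ => if |(n : ℝ) - y| < h / 2 then c else 0) =
      Set.indicator (Set.Ioo ((n : ℝ) - h / 2) (n + h / 2)) (fun _ => c) := by
    funext y
    rw [Set.indicator_apply]
    have h2 : |(n : ℝ) - y| < h / 2 ↔ y ∈ Set.Ioo ((n : ℝ) - h / 2) (n + h / 2) := by
      rw [abs_lt, Set.mem_Ioo]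
      constructor
      · rintro ⟨h3, h4⟩
        constructor <;> linarith only [h4, h3]
      · rintro ⟨h3, h4⟩
        constructor <;> linarith only [h4, h3]
    by_cases h3 : |(n : ℝ) - y| < h / 2
    · rw [if_pos h3, if_pos (h2.1 h3)]
    · rw [if_neg h3, if_neg (fun h4 => h3 (h2.2 h4))]
  rw [h1, setIntegral_indicator measurableSet_Ioo]
  have h2 : Set.Ioc a b ∩ Set.Ioo ((n : ℝ) - h / 2) (n + h / 2) = Set.Ioo ((n : ℝ) - h / 2) (n + h / 2) := by
    rw [Set.inter_eq_right]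
    intro y hy
    exact ⟨by linarith only [ha, hy, hy.1], by linarith only [hb, hy, hy.2]⟩
  rw [h2, setIntegral_const, Measure.real, Real.volume_Ioo, ENNReal.toReal_ofReal (by linarith only [hh])]
  rw [Complex.real_smul]
  congr 2
  ring

/-- smoothing -/
private theorem MajA_sm (F : ℕ → ℝ) {N : ℕ} (hN : ∀ n, N ≤ n → F n = 0) {M0 : ℝ} (hF : ∀ n, |F n| ≤ M0)
    {h H : ℝ} (hh : 1 ≤ h) (hhH : h ≤ H) (x α : ℝ) :
    h * ‖Mw F x H α‖ ≤ (∫ y in (x - H / 2)..(x + H / 2), ‖Mw F y h α‖) + 4 * h ^ 2 * M0 := by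
  have hh0 : 0 < h := by linarith
  have hH0 : 0 < H := by linarith
  have hM : 0 ≤ M0 := (abs_nonneg _).trans (hF 0)
  set G : ℝ → ℂ := fun y => ∑ n ∈ Win x H, if |(n : ℝ) - y| < h / 2 then (F n : ℂ) * ee (n * α) else 0 with hG
  have hGm : Measurable G := Finset.measurable_sum _ fun n _ =>
    Measurable.ite (MajA_mset n (h / 2)) measurable_const measurable_const
  -- G in terms of windows
  have hG1 : ∀ y, G y = ∑ n ∈ (Win x H).filter (fun n : ℕ => |(n : ℝ) - y| < h / 2), (F n : ℂ) * ee (n * α) := by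
    intro y
    rw [hG, Finset.sum_filter]
  have hGb : ∀ y, ‖G y‖ ≤ (h + 1) * M0 := by
    intro y
    rw [hG1]
    refine (MajA_norm F hF α _).trans (mul_le_mul_of_nonneg_right ?_ hM)
    refine le_trans ?_ (MajA_card (x := y) hh0.le)
    have h1 : (Win x H).filter (fun n : ℕ => |(n : ℝ) - y| < h / 2) ⊆ Win y h := by
      intro n hn
      exact (MajA_mem hh0 n).2 (mem_filter.1 hn).2
    exact_mod_cast card_le_card h1
  have hG2 : ∀ y, |y - x| ≤ (H - h) / 2 → G y = Mw F y h α := by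
    intro y hy
    rw [hG1]
    unfold Mw
    congr 1
    ext n
    rw [mem_filter, MajA_mem hH0, MajA_mem hh0]
    refine ⟨fun h1 => h1.2, fun h1 => ⟨?_, h1⟩⟩
    have h2 := abs_lt.1 h1
    have h3 := abs_le.1 hy
    rw [abs_lt]
    constructor <;> linarith only [h2, h3, h2.1, h2.2, h3.1, h3.2]
  have hGi := fun a b => MajA_ii hGm hGb a b
  -- the integral of G
  have e1 : ∫ y in (x - H / 2 - h / 2)..(x + H / 2 + h / 2), G y = h * Mw F x H α := by
    rw [hG, intervalIntegral.integral_finsetSum]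
    · unfold Mw
      rw [Finset.mul_sum]
      refine Finset.sum_congr rfl fun n hn => ?_
      have h1 := abs_lt.1 ((MajA_mem hH0 n).1 hn)
      exact MajA_one n hh0 (by linarith only [h1, h1.1]) (by linarith only [h1, h1.2]) _
    · intro n _
      refine MajA_ii (Measurable.ite (MajA_mset n (h / 2)) measurable_const measurable_const)
        (C := ‖(F n : ℂ) * ee (n * α)‖) (fun y => ?_) _ _
      split_ifs
      · exact le_rfl
      · rw [norm_zero]
        exact norm_nonneg _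
  have e2 : ∫ y in (x - H / 2 - h / 2)..(x + H / 2 + h / 2), G y =
      (∫ y in (x - H / 2 - h / 2)..(x - (H - h) / 2), G y) + (∫ y in (x - (H - h) / 2)..(x + (H - h) / 2), G y)
        + ∫ y in (x + (H - h) / 2)..(x + H / 2 + h / 2), G y := by
    rw [intervalIntegral.integral_add_adjacent_intervals (hGi _ _) (hGi _ _),
      intervalIntegral.integral_add_adjacent_intervals (hGi _ _) (hGi _ _)]
  have b1 : ‖∫ y in (x - H / 2 - h / 2)..(x - (H - h) / 2), G y‖ ≤ (h + 1) * M0 * h := by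
    refine (intervalIntegral.norm_integral_le_of_norm_le_const (fun y _ => hGb y)).trans (le_of_eq ?_)
    rw [show x - (H - h) / 2 - (x - H / 2 - h / 2) = h by ring, abs_of_pos hh0]
  have b3 : ‖∫ y in (x + (H - h) / 2)..(x + H / 2 + h / 2), G y‖ ≤ (h + 1) * M0 * h := by
    refine (intervalIntegral.norm_integral_le_of_norm_le_const (fun y _ => hGb y)).trans (le_of_eq ?_)
    rw [show x + H / 2 + h / 2 - (x + (H - h) / 2) = h by ring, abs_of_pos hh0]
  have hMm : Measurable fun y => ‖Mw F y h α‖ := (MajA_meas F hN hh0 α).norm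
  have hMi := fun a b => MajA_iir hMm (C := (h + 1) * M0) (fun y => by
    rw [norm_norm]
    exact MajA_Mw_le F hM hF hh0.le α) a b
  have b2 : ‖∫ y in (x - (H - h) / 2)..(x + (H - h) / 2), G y‖ ≤ ∫ y in (x - H / 2)..(x + H / 2), ‖Mw F y h α‖ := by
    have h1 : ‖∫ y in (x - (H - h) / 2)..(x + (H - h) / 2), G y‖ ≤
        ∫ y in (x - (H - h) / 2)..(x + (H - h) / 2), ‖G y‖ :=
      intervalIntegral.norm_integral_le_integral_norm (by linarith only [hhH])
    refine h1.trans ?_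
    have h2 : ∫ y in (x - (H - h) / 2)..(x + (H - h) / 2), ‖G y‖ =
        ∫ y in (x - (H - h) / 2)..(x + (H - h) / 2), ‖Mw F y h α‖ := by
      apply intervalIntegral.integral_congr
      intro y hy
      rw [Set.uIcc_of_le (by linarith only [hhH])] at hy
      simp only
      rw [hG2 y (by
        rw [abs_le]
        constructor <;> linarith only [hy, hy.1, hy.2])]
    rw [h2]
    apply intervalIntegral.integral_mono_interval (by linarith only [hh]) (by linarith only [hhH]) (by linarith only [hh])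
    · exact Filter.Eventually.of_forall fun y => norm_nonneg _
    · exact hMi _ _
  have e3 : h * ‖Mw F x H α‖ = ‖(h : ℂ) * Mw F x H α‖ := by
    rw [norm_mul, Complex.norm_real, Real.norm_eq_abs, abs_of_pos hh0]
  rw [e3, ← e1, e2]
  refine (norm_add₃_le).trans ?_
  nlinarith only [b1, b3, b2, hh, hM, hh0, mul_nonneg hM hh0.le]

/-- a small change of the frequency -/
private theorem MajA_fr (F : ℕ → ℝ) {M0 : ℝ} (hF : ∀ n, |F n| ≤ M0) {h : ℝ} (hh : 1 ≤ h) (y θ β : ℝ) :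
    ‖Mw F y h (θ + β)‖ ≤ ‖Mw F y h θ‖ + 2 * Real.pi * |β| * h ^ 2 * M0 := by
  have hh0 : 0 < h := by linarith
  have hM : 0 ≤ M0 := (abs_nonneg _).trans (hF 0)
  have hee : ∀ t : ℝ, ‖ee t - 1‖ ≤ 2 * Real.pi * |t| := by
    intro t
    unfold ee
    have h1 := Real.norm_exp_I_mul_ofReal_sub_one_le (x := 2 * Real.pi * t)
    have h2 : Complex.exp (2 * Real.pi * t * Complex.I) = Complex.exp (Complex.I * ((2 * Real.pi * t : ℝ) : ℂ)) := by
      congr 1
      push_cast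
      ring
    rw [h2]
    refine h1.trans (le_of_eq ?_)
    rw [Real.norm_eq_abs, abs_mul, abs_of_pos (by positivity)]
  have e1 : Mw F y h (θ + β) = ee (y * β) * (Mw F y h θ +
      ∑ n ∈ Win y h, (F n : ℂ) * ee (n * θ) * (ee ((n - y) * β) - 1)) := by
    unfold Mw
    rw [← Finset.sum_add_distrib, Finset.mul_sum]
    refine Finset.sum_congr rfl fun n _ => ?_
    have h1 : ee ((n : ℝ) * (θ + β)) = ee (y * β) * (ee (n * θ) * ee ((n - y) * β)) := by
      rw [← Pool.Agent.H91.PK.LSa_ee_add, ← Pool.Agent.H91.PK.LSa_ee_add]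
      congr 1
      ring
    rw [h1]
    ring
  rw [e1, norm_mul, Pool.Agent.H91.PK.LSa_norm_ee, one_mul]
  refine (norm_add_le _ _).trans (add_le_add le_rfl ?_)
  refine (norm_sum_le _ _).trans ?_
  have h2 : ∀ n ∈ Win y h, ‖(F n : ℂ) * ee (n * θ) * (ee ((n - y) * β) - 1)‖ ≤ M0 * (Real.pi * |β| * h) := by
    intro n hn
    rw [norm_mul, norm_mul, Pool.Agent.H91.PK.LSa_norm_ee, mul_one, Complex.norm_real, Real.norm_eq_abs]
    refine mul_le_mul (hF n) ?_ (norm_nonneg _) hM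
    refine (hee _).trans ?_
    rw [abs_mul]
    have h3 := ((MajA_mem hh0 n).1 hn).le
    have h4 := abs_nonneg β
    have h5 := Real.pi_pos
    calc 2 * Real.pi * (|(n : ℝ) - y| * |β|) = (2 * Real.pi * |β|) * |(n : ℝ) - y| := by ring
      _ ≤ (2 * Real.pi * |β|) * (h / 2) := mul_le_mul_of_nonneg_left h3 (by positivity)
      _ = Real.pi * |β| * h := by ring
  refine (Finset.sum_le_card_nsmul _ _ _ h2).trans ?_
  rw [nsmul_eq_mul]
  have h3 := MajA_card (x := y) hh0.le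
  have h4 : ((Win y h).card : ℝ) ≤ 2 * h := by linarith only [hh, h3]
  have h5 : 0 ≤ M0 * (Real.pi * |β| * h) := by positivity
  calc ((Win y h).card : ℝ) * (M0 * (Real.pi * |β| * h)) ≤ (2 * h) * (M0 * (Real.pi * |β| * h)) :=
        mul_le_mul_of_nonneg_right h4 h5
    _ = 2 * Real.pi * |β| * h ^ 2 * M0 := by ring

/-- Cauchy-Schwarz on an interval -/
private theorem MajA_cs {f : ℝ → ℝ} (hf : Measurable f) {C : ℝ} (hC : ∀ y, ‖f y‖ ≤ C) (a b : ℝ) (hab : a ≤ b) :
    (∫ y in a..b, f y) ^ 2 ≤ (b - a) * ∫ y in a..b, f y ^ 2 := by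
  set I := ∫ y in a..b, f y with hI
  have hC0 : 0 ≤ C := (norm_nonneg _).trans (hC 0)
  have i1 := MajA_iir hf hC a b
  have i2 : IntervalIntegrable (fun y => f y ^ 2) volume a b := MajA_iir (hf.pow_const 2) (C := C ^ 2) (fun y => by
    rw [norm_pow]
    exact pow_le_pow_left₀ (norm_nonneg _) (hC y) 2) a b
  rcases hab.eq_or_lt with h0 | h0
  · rw [hI, h0]
    simp
  have hlen : 0 < b - a := by linarith
  have h1 : 0 ≤ ∫ y in a..b, ((b - a) * f y - I) ^ 2 :=
    intervalIntegral.integral_nonneg hab fun y _ => sq_nonneg _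
  have h2 : ∫ y in a..b, ((b - a) * f y - I) ^ 2 = (b - a) ^ 2 * (∫ y in a..b, f y ^ 2) - (b - a) * I ^ 2 := by
    have e1 : ∀ y, ((b - a) * f y - I) ^ 2 = ((b - a) ^ 2 * f y ^ 2 - (2 * (b - a) * I) * f y) + I ^ 2 := by
      intro y
      ring
    rw [intervalIntegral.integral_congr (g := fun y => ((b - a) ^ 2 * f y ^ 2 - (2 * (b - a) * I) * f y) + I ^ 2)
      (fun y _ => e1 y)]
    rw [intervalIntegral.integral_add ((i2.const_mul _).sub (i1.const_mul _)) intervalIntegrable_const,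
      intervalIntegral.integral_sub (i2.const_mul _) (i1.const_mul _), intervalIntegral.integral_const_mul,
      intervalIntegral.integral_const_mul, intervalIntegral.integral_const, ← hI, smul_eq_mul]
    ring
  rw [h2] at h1
  have h3 : 0 ≤ (b - a) * ((b - a) * (∫ y in a..b, f y ^ 2) - I ^ 2) := by linarith only [h1]
  have h4 := nonneg_of_mul_nonneg_right h3 hlen
  linarith

/-- everything at one point -/
private theorem MajA_pt (F : ℕ → ℝ) {N : ℕ} (hN : ∀ n, N ≤ n → F n = 0) {M0 : ℝ} (hF : ∀ n, |F n| ≤ M0)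
    {h H : ℝ} (hh : 1 ≤ h) (hhH : h ≤ H) (x θ β : ℝ) :
    ‖Mw F x H (θ + β)‖ ^ 2 ≤ 3 * (H / h ^ 2) * (∫ y in (x - H / 2)..(x + H / 2), ‖Mw F y h θ‖ ^ 2)
      + (3 * (2 * Real.pi * H * (|β| * h) * M0) ^ 2 + 48 * h ^ 2 * M0 ^ 2) := by
  have hh0 : 0 < h := by linarith
  have hH0 : 0 < H := by linarith
  have hM : 0 ≤ M0 := (abs_nonneg _).trans (hF 0)
  have h1 := MajA_sm F hN hF hh hhH x (θ + β)
  have hm1 : Measurable fun y => ‖Mw F y h (θ + β)‖ := (MajA_meas F hN hh0 _).norm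
  have hm2 : Measurable fun y => ‖Mw F y h θ‖ := (MajA_meas F hN hh0 _).norm
  have hb : ∀ α y, ‖‖Mw F y h α‖‖ ≤ (h + 1) * M0 := fun α y => by
    rw [norm_norm]
    exact MajA_Mw_le F hM hF hh0.le α
  have i1 := MajA_iir hm1 (hb _) (x - H / 2) (x + H / 2)
  have i2 := MajA_iir hm2 (hb _) (x - H / 2) (x + H / 2)
  have h2 : ∫ y in (x - H / 2)..(x + H / 2), ‖Mw F y h (θ + β)‖ ≤
      (∫ y in (x - H / 2)..(x + H / 2), ‖Mw F y h θ‖) + H * (2 * Real.pi * |β| * h ^ 2 * M0) := by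
    have h3 : ∫ y in (x - H / 2)..(x + H / 2), ‖Mw F y h (θ + β)‖ ≤
        ∫ y in (x - H / 2)..(x + H / 2), (‖Mw F y h θ‖ + 2 * Real.pi * |β| * h ^ 2 * M0) :=
      intervalIntegral.integral_mono_on (by linarith only [hh, hhH]) i1 (i2.add intervalIntegrable_const)
        (fun y _ => MajA_fr F hF hh y θ β)
    refine h3.trans (le_of_eq ?_)
    rw [intervalIntegral.integral_add i2 intervalIntegrable_const, intervalIntegral.integral_const, smul_eq_mul]
    ring
  have h3 := MajA_cs hm2 (hb _) (x - H / 2) (x + H / 2) (by linarith only [hh, hhH])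
  rw [show x + H / 2 - (x - H / 2) = H by ring] at h3
  set J := ∫ y in (x - H / 2)..(x + H / 2), ‖Mw F y h θ‖ with hJ
  set J2 := ∫ y in (x - H / 2)..(x + H / 2), ‖Mw F y h θ‖ ^ 2 with hJ2
  have h4 : ‖Mw F x H (θ + β)‖ ≤ J / h + 2 * Real.pi * H * (|β| * h) * M0 + 4 * h * M0 := by
    have h5 : h * ‖Mw F x H (θ + β)‖ ≤ h * (J / h + 2 * Real.pi * H * (|β| * h) * M0 + 4 * h * M0) := by
      have h6 : h * (J / h + 2 * Real.pi * H * (|β| * h) * M0 + 4 * h * M0) =
          J + H * (2 * Real.pi * |β| * h ^ 2 * M0) + 4 * h ^ 2 * M0 := by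
        field_simp
      rw [h6]
      linarith only [h1, h2]
    exact le_of_mul_le_mul_left h5 hh0
  have h5 : ‖Mw F x H (θ + β)‖ ^ 2 ≤ (J / h + 2 * Real.pi * H * (|β| * h) * M0 + 4 * h * M0) ^ 2 :=
    pow_le_pow_left₀ (norm_nonneg _) h4 2
  have h6 : ∀ a b c : ℝ, (a + b + c) ^ 2 ≤ 3 * a ^ 2 + 3 * b ^ 2 + 3 * c ^ 2 := by
    intro a b c
    nlinarith only [sq_nonneg (a - b), sq_nonneg (b - c), sq_nonneg (a - c)]
  have h7 := h5.trans (h6 _ _ _)
  have h8 : (J / h) ^ 2 ≤ H / h ^ 2 * J2 := by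
    rw [div_pow, div_le_iff₀ (by positivity)]
    have : H / h ^ 2 * J2 * h ^ 2 = H * J2 := by field_simp
    rw [this]
    exact h3
  have h9 : (4 * h * M0) ^ 2 = 16 * (h ^ 2 * M0 ^ 2) := by ring
  rw [h9] at h7
  linarith only [h7, h8]

/-- the double integral -/
private theorem MajA_dbl {f : ℝ → ℝ} (hf : Measurable f) (hf0 : ∀ y, 0 ≤ f y) {C : ℝ} (hC : ∀ y, f y ≤ C)
    {u v H : ℝ} (huv : u ≤ v) (hH : 0 ≤ H) :
    (∫ x in u..v, ∫ y in (x - H / 2)..(x + H / 2), f y) ≤ H * ∫ y in (u - H / 2)..(v + H / 2), f y := by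
  have hC' : ∀ y, ‖f y‖ ≤ C := fun y => by
    rw [Real.norm_eq_abs, abs_of_nonneg (hf0 y)]
    exact hC y
  have e1 : ∀ x : ℝ, ∫ y in (x - H / 2)..(x + H / 2), f y = ∫ t in (-(H / 2))..(H / 2), f (x + t) := by
    intro x
    rw [intervalIntegral.integral_comp_add_left (fun y => f y)]
    congr 1
  simp_rw [e1]
  have hswap : (∫ x in u..v, ∫ t in (-(H / 2))..(H / 2), f (x + t)) =
      ∫ t in (-(H / 2))..(H / 2), ∫ x in u..v, f (x + t) := by
    rw [intervalIntegral.integral_of_le huv, intervalIntegral.integral_of_le (by linarith only [hH] : -(H / 2) ≤ H / 2)]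
    have e2 : ∀ x : ℝ, ∫ t in (-(H / 2))..(H / 2), f (x + t) = ∫ t in Set.Ioc (-(H / 2)) (H / 2), f (x + t) :=
      fun x => intervalIntegral.integral_of_le (by linarith only [hH])
    have e3 : ∀ t : ℝ, ∫ x in u..v, f (x + t) = ∫ x in Set.Ioc u v, f (x + t) :=
      fun t => intervalIntegral.integral_of_le huv
    simp_rw [e2, e3]
    refine integral_integral_swap ?_
    refine Integrable.of_bound (C := C) ?_ (Filter.Eventually.of_forall fun z => hC' _)
    exact (hf.comp (measurable_fst.add measurable_snd)).aestronglyMeasurable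
  rw [hswap]
  have h1 : ∀ t ∈ Set.Icc (-(H / 2)) (H / 2), ∫ x in u..v, f (x + t) ≤ ∫ y in (u - H / 2)..(v + H / 2), f y := by
    intro t ht
    rw [intervalIntegral.integral_comp_add_right (fun y => f y)]
    apply intervalIntegral.integral_mono_interval (by linarith only [ht, ht.1]) (by linarith) (by linarith only [ht, ht.2])
    · exact Filter.Eventually.of_forall fun y => hf0 y
    · exact MajA_iir hf hC' _ _
  have hm : Measurable fun t : ℝ => ∫ x in u..v, f (x + t) := by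
    have e3 : (fun t : ℝ => ∫ x in u..v, f (x + t)) = fun t : ℝ => ∫ x in Set.Ioc u v, f (x + t) := by
      funext t
      exact intervalIntegral.integral_of_le huv
    rw [e3]
    apply StronglyMeasurable.measurable
    refine StronglyMeasurable.integral_prod_right' (f := fun z : ℝ × ℝ => f (z.2 + z.1)) ?_
    exact (hf.comp (measurable_snd.add measurable_fst)).stronglyMeasurable
  have hi : IntervalIntegrable (fun t : ℝ => ∫ x in u..v, f (x + t)) volume (-(H / 2)) (H / 2) := by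
    refine MajA_iir hm (C := C * |v - u|) (fun t => ?_) _ _
    exact intervalIntegral.norm_integral_le_of_norm_le_const fun x _ => hC' _
  have h2 := intervalIntegral.integral_mono_on (by linarith only [hH] : -(H / 2) ≤ H / 2) hi intervalIntegrable_const h1
  refine h2.trans (le_of_eq ?_)
  rw [intervalIntegral.integral_const, smul_eq_mul]
  ring

theorem maj_a_h (h_maj_r : maj_r_P) (hV : VKw (19 / 20)) (s : ℝ) (hs0 : 0 < s) (hs : s < 1) (A B E : ℕ) : ∃ b κ X0 : ℕ, ∀ X : ℕ, X0 ≤ X →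
    ∀ (P1 P c a : ℕ) (S : Finset ℕ) (H β : ℝ), Real.log X ^ b ≤ P → (P : ℝ) ≤ Real.exp (Real.log X ^ s) → (P : ℝ) ^ 12 ≤ H →
      H ≤ X / Real.log X ^ κ → S ⊆ pb P → 1 ≤ c → (c : ℝ) ≤ Real.log X ^ B → |β| ≤ Real.log X ^ E / H →
      ∫ x in Set.Icc (X : ℝ) (2 * X), ‖Mw (FS (gP P1 P) S) x H ((a : ℝ) / c + β)‖ ^ 2 ≤ X * H ^ 2 / Real.log X ^ A := by
  obtain ⟨b', κ', X0', hmaj⟩ := h_maj_r hV s hs0 hs (A + 2) B
  obtain ⟨e, he⟩ : ∃ e : ℕ, e = E + (A + 6) := ⟨_, rfl⟩
  refine ⟨max b' e, max κ' (A + 3), max X0' ⌈Real.exp 3000⌉₊, fun X hX P1 P c a S H β hLP hP hPH hHX hS hc hcB hβ => ?_⟩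
  have hX1 : X0' ≤ X := le_trans (le_max_left _ _) hX
  have hX2 : Real.exp 3000 ≤ X := by
    have h1 : ⌈Real.exp 3000⌉₊ ≤ X := le_trans (le_max_right _ _) hX
    exact (Nat.le_ceil _).trans (by exact_mod_cast h1)
  have hXpos : (0 : ℝ) < X := lt_of_lt_of_le (Real.exp_pos _) hX2
  obtain ⟨L, hL⟩ : ∃ L : ℝ, L = Real.log X := ⟨_, rfl⟩
  rw [← hL] at hLP hP hHX hcB hβ ⊢
  have hL3 : 3000 ≤ L := by
    rw [hL]
    exact (Real.le_log_iff_exp_le hXpos).2 hX2
  have hL1 : 1 ≤ L := by linarith only [hs0, hs, hL3]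
  have hL0 : 0 < L := by linarith only [hs0, hs, hL3]
  have hLe : 1 ≤ L ^ e := one_le_pow₀ hL1
  have hLe0 : 0 < L ^ e := by linarith only [hs0, hs, hLe]
  have hP1 : (1 : ℝ) ≤ P := by
    refine le_trans ?_ hLP
    exact one_le_pow₀ hL1
  have hP0 : (0 : ℝ) < P := by linarith only [hs0, hs, hP1]
  have hH0 : 0 < H := lt_of_lt_of_le (by positivity) hPH
  have hPe : L ^ e ≤ P := (pow_le_pow_right₀ hL1 (le_max_right _ _)).trans hLP
  obtain ⟨h, hh⟩ : ∃ h : ℝ, h = H / L ^ e := ⟨_, rfl⟩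
  have hhe : h * L ^ e = H := by
    rw [hh]
    field_simp
  have hh11 : (P : ℝ) ^ 11 ≤ h := by
    rw [hh, le_div_iff₀ hLe0]
    calc (P : ℝ) ^ 11 * L ^ e ≤ (P : ℝ) ^ 11 * P := mul_le_mul_of_nonneg_left hPe (by positivity)
      _ = (P : ℝ) ^ 12 := by ring
      _ ≤ H := hPH
  have hh1 : 1 ≤ h := le_trans (one_le_pow₀ hP1) hh11
  have hh0 : 0 < h := by linarith only [hs0, hs, hh1]
  have hhH : h ≤ H := by
    rw [← hhe]
    nlinarith only [hLe, hh1]
  have hHA : H ≤ X / L ^ (A + 3) := by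
    refine hHX.trans ?_
    apply div_le_div_of_nonneg_left hXpos.le (by positivity)
    exact pow_le_pow_right₀ hL1 (le_max_right _ _)
  have hHA' : H * L ^ (A + 3) ≤ X := by
    rwa [le_div_iff₀ (by positivity)] at hHA
  have hHX1 : H ≤ X := by
    refine hHA.trans ?_
    apply div_le_self hXpos.le
    exact one_le_pow₀ hL1
  have hmr := hmaj X hX1 P1 P c a S h (by
      rw [← hL]
      exact (pow_le_pow_right₀ hL1 (le_max_left _ _)).trans hLP) (by rw [← hL]; exact hP) hh11 (by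
      rw [← hL]
      refine (hhH.trans hHX).trans ?_
      apply div_le_div_of_nonneg_left hXpos.le (by positivity)
      exact pow_le_pow_right₀ hL1 (le_max_left _ _)) hS hc (by rw [← hL]; exact hcB)
  rw [← hL] at hmr
  -- the function, cut off
  obtain ⟨F, hFd⟩ : ∃ F : ℕ → ℝ, F = FS (gP P1 P) S := ⟨_, rfl⟩
  rw [← hFd] at hmr ⊢
  obtain ⟨G, hGd⟩ : ∃ G : ℕ → ℝ, G = fun n => if n < 4 * X then F n else 0 := ⟨_, rfl⟩
  have hGN : ∀ n, 4 * X ≤ n → G n = 0 := by
    intro n hn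
    rw [hGd]
    simp only
    rw [if_neg (by omega)]
  have hGF : ∀ n, n < 4 * X → G n = F n := by
    intro n hn
    rw [hGd]
    simp only
    rw [if_pos hn]
  have hGb : ∀ n, |G n| ≤ 4 * L := by
    intro n
    by_cases hn : n < 4 * X
    · rw [hGF n hn]
      rcases Nat.eq_zero_or_pos n with h0 | h0
      · have h1 : F n = 0 := by
          rw [hFd, h0]
          unfold FS
          refine Finset.sum_eq_zero fun p _ => ?_
          have h1 : Pool.Agent.H43.LM.mu (0 / p) = 0 := by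
            rw [Nat.zero_div]
            unfold Pool.Agent.H43.LM.mu
            simp
          unfold gP
          rw [h1]
          simp
        rw [h1, abs_zero]
        positivity
      · have h1 : |F n| ≤ ((S.filter (fun p => p ∣ n)).card : ℝ) := by
          rw [hFd]
          unfold FS
          refine (abs_sum_le_sum_abs _ _).trans ?_
          refine (sum_le_card_nsmul _ _ 1 fun p _ => Pool.Agent.H43.LM.gP_abs_le P1 P _).trans (by simp)
        have h2 : S.filter (fun p => p ∣ n) ⊆ n.primeFactors := by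
          intro p hp
          obtain ⟨hp1, hp2⟩ := mem_filter.1 hp
          have hp3 := hS hp1
          unfold pb at hp3
          exact Nat.mem_primeFactors.2 ⟨(mem_filter.1 hp3).2, hp2, by omega⟩
        have h3 : 2 ^ n.primeFactors.card ≤ n := by
          calc 2 ^ n.primeFactors.card = ∏ _p ∈ n.primeFactors, 2 := by rw [prod_const]
            _ ≤ ∏ p ∈ n.primeFactors, p := by
                refine prod_le_prod' fun p hp => ?_
                exact (Nat.prime_of_mem_primeFactors hp).two_le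
            _ ≤ n := Nat.le_of_dvd h0 (Nat.prod_primeFactors_dvd n)
        have h4 : (2 : ℝ) ^ n.primeFactors.card ≤ n := by exact_mod_cast h3
        have h5 : (n.primeFactors.card : ℝ) * Real.log 2 ≤ Real.log n := by
          have := Real.log_le_log (by positivity) h4
          rwa [Real.log_pow] at this
        have h6 : ((S.filter (fun p => p ∣ n)).card : ℝ) ≤ n.primeFactors.card := by
          exact_mod_cast card_le_card h2
        have h7 : (1 / 2 : ℝ) ≤ Real.log 2 := by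
          have := Real.log_two_gt_d9
          linarith only [hs0, hs, this]
        have h8 : (n.primeFactors.card : ℝ) * (1 / 2) ≤ (n.primeFactors.card : ℝ) * Real.log 2 :=
          mul_le_mul_of_nonneg_left h7 (Nat.cast_nonneg _)
        have h9 : Real.log n ≤ L + 2 := by
          have g1 : (n : ℝ) ≤ 4 * X := by exact_mod_cast hn.le
          have g2 : (0 : ℝ) < n := by exact_mod_cast h0
          have g3 := Real.log_le_log g2 g1
          rw [Real.log_mul (by norm_num) hXpos.ne', ← hL] at g3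
          have g4 : Real.log 4 ≤ 2 := by
            have g5 : Real.log 4 = 2 * Real.log 2 := by
              rw [show (4 : ℝ) = 2 ^ 2 by norm_num, Real.log_pow]
              norm_num
            have g6 := Real.log_two_lt_d9
            linarith only [hs0, hs, g5, g6]
          linarith only [g3, g4]
        linarith only [hs0, hs, hL3, h1, h5, h6, h8, h9]
    · rw [hGN n (by omega), abs_zero]
      positivity
  have hMG : ∀ x α t : ℝ, 0 < t → x + t / 2 ≤ 4 * X → Mw F x t α = Mw G x t α := by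
    intro x α t ht hx
    unfold Mw
    refine Finset.sum_congr rfl fun n hn => ?_
    have h1 := (abs_lt.1 ((MajA_mem ht n).1 hn)).2
    have h2 : (n : ℝ) < 4 * X := by linarith only [hx, h1]
    have h3 : n < 4 * X := by exact_mod_cast h2
    rw [hGF n h3]
  -- the bound
  have hM0 : 0 ≤ 4 * L := by positivity
  have hXX : (X : ℝ) ≤ 2 * X := by linarith only [hs0, hs, hh1, hhH, hHX1]
  obtain ⟨θ, hθ⟩ : ∃ θ : ℝ, θ = (a : ℝ) / c := ⟨_, rfl⟩
  rw [← hθ] at hmr ⊢
  obtain ⟨K1, hK1⟩ : ∃ K1 : ℝ, K1 = 3 * (2 * Real.pi * H * (|β| * h) * (4 * L)) ^ 2 + 48 * h ^ 2 * (4 * L) ^ 2 := ⟨_, rfl⟩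
  have hfm : Measurable fun y => ‖Mw G y h θ‖ ^ 2 := ((MajA_meas G hGN hh0 θ).norm).pow_const 2
  have hfb : ∀ y, ‖Mw G y h θ‖ ^ 2 ≤ ((h + 1) * (4 * L)) ^ 2 := fun y =>
    pow_le_pow_left₀ (norm_nonneg _) (MajA_Mw_le G hM0 hGb hh0.le θ) 2
  have hfb' : ∀ y, ‖‖Mw G y h θ‖ ^ 2‖ ≤ ((h + 1) * (4 * L)) ^ 2 := fun y => by
    rw [norm_pow, norm_norm]
    exact hfb y
  have t0 : ∫ x in Set.Icc (X : ℝ) (2 * X), ‖Mw F x H (θ + β)‖ ^ 2 = ∫ x in (X : ℝ)..(2 * X), ‖Mw G x H (θ + β)‖ ^ 2 := by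
    rw [intervalIntegral.integral_of_le hXX, integral_Icc_eq_integral_Ioc]
    refine setIntegral_congr_fun measurableSet_Ioc fun x hx => ?_
    rw [hMG x _ H hH0 (by linarith only [hs0, hs, hh1, hhH, hHX1, hx, hx.2])]
  have t0' : ∫ x in Set.Icc (X : ℝ) (2 * X), ‖Mw F x h θ‖ ^ 2 = ∫ x in (X : ℝ)..(2 * X), ‖Mw G x h θ‖ ^ 2 := by
    rw [intervalIntegral.integral_of_le hXX, integral_Icc_eq_integral_Ioc]
    refine setIntegral_congr_fun measurableSet_Ioc fun x hx => ?_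
    rw [hMG x _ h hh0 (by linarith only [hs0, hs, hh1, hhH, hHX1, hx, hx.2])]
  rw [t0]
  rw [t0'] at hmr
  -- the inner integral as a function of x
  have hinm : Measurable fun x : ℝ => ∫ y in (x - H / 2)..(x + H / 2), ‖Mw G y h θ‖ ^ 2 := by
    have e1 : (fun x : ℝ => ∫ y in (x - H / 2)..(x + H / 2), ‖Mw G y h θ‖ ^ 2) =
        fun x : ℝ => ∫ t in Set.Ioc (-(H / 2)) (H / 2), ‖Mw G (x + t) h θ‖ ^ 2 := by
      funext x
      rw [← intervalIntegral.integral_of_le (by linarith only [hs0, hs, hh1, hhH]),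
        intervalIntegral.integral_comp_add_left (fun y => ‖Mw G y h θ‖ ^ 2)]
      congr 1
    rw [e1]
    apply StronglyMeasurable.measurable
    refine StronglyMeasurable.integral_prod_right' (f := fun z : ℝ × ℝ => ‖Mw G (z.1 + z.2) h θ‖ ^ 2) ?_
    exact (hfm.comp (measurable_fst.add measurable_snd)).stronglyMeasurable
  have hinb : ∀ x : ℝ, ‖∫ y in (x - H / 2)..(x + H / 2), ‖Mw G y h θ‖ ^ 2‖ ≤ ((h + 1) * (4 * L)) ^ 2 * H := by
    intro x
    refine (intervalIntegral.norm_integral_le_of_norm_le_const fun y _ => hfb' y).trans (le_of_eq ?_)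
    rw [show x + H / 2 - (x - H / 2) = H by ring, abs_of_pos hH0]
  have hini := MajA_iir hinm hinb (X : ℝ) (2 * X)
  have houti : IntervalIntegrable (fun x => ‖Mw G x H (θ + β)‖ ^ 2) volume (X : ℝ) (2 * X) :=
    MajA_iir (((MajA_meas G hGN hH0 _).norm).pow_const 2) (C := ((H + 1) * (4 * L)) ^ 2) (fun y => by
      rw [norm_pow, norm_norm]
      exact pow_le_pow_left₀ (norm_nonneg _) (MajA_Mw_le G hM0 hGb hH0.le _) 2) _ _
  have t1 : ∫ x in (X : ℝ)..(2 * X), ‖Mw G x H (θ + β)‖ ^ 2 ≤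
      3 * (H / h ^ 2) * (∫ x in (X : ℝ)..(2 * X), ∫ y in (x - H / 2)..(x + H / 2), ‖Mw G y h θ‖ ^ 2) + X * K1 := by
    have g1 : ∫ x in (X : ℝ)..(2 * X), ‖Mw G x H (θ + β)‖ ^ 2 ≤ ∫ x in (X : ℝ)..(2 * X),
        (3 * (H / h ^ 2) * (∫ y in (x - H / 2)..(x + H / 2), ‖Mw G y h θ‖ ^ 2) + K1) := by
      apply intervalIntegral.integral_mono_on hXX houti ((hini.const_mul _).add intervalIntegrable_const)
      intro x _
      rw [hK1]
      exact MajA_pt G hGN hGb hh1 hhH x θ β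
    refine g1.trans (le_of_eq ?_)
    rw [intervalIntegral.integral_add (hini.const_mul _) intervalIntegrable_const,
      intervalIntegral.integral_const_mul, intervalIntegral.integral_const, smul_eq_mul]
    ring
  have t2 := MajA_dbl hfm (fun y => by positivity) hfb hXX hH0.le
  have hfi := fun u v => MajA_iir hfm hfb' u v
  have t3 : ∫ y in ((X : ℝ) - H / 2)..(2 * X + H / 2), ‖Mw G y h θ‖ ^ 2 ≤
      X * h ^ 2 / L ^ (A + 2) + H * ((h + 1) * (4 * L)) ^ 2 := by
    rw [← intervalIntegral.integral_add_adjacent_intervals (hfi ((X : ℝ) - H / 2) (2 * X)) (hfi _ _),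
      ← intervalIntegral.integral_add_adjacent_intervals (hfi ((X : ℝ) - H / 2) X) (hfi _ _)]
    have g1 : ∫ y in ((X : ℝ) - H / 2)..X, ‖Mw G y h θ‖ ^ 2 ≤ ((h + 1) * (4 * L)) ^ 2 * (H / 2) := by
      refine (le_abs_self _).trans ?_
      rw [← Real.norm_eq_abs]
      refine (intervalIntegral.norm_integral_le_of_norm_le_const fun y _ => hfb' y).trans (le_of_eq ?_)
      rw [show (X : ℝ) - (X - H / 2) = H / 2 by ring, abs_of_pos (by linarith only [hs0, hs, hh1, hhH])]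
    have g2 : ∫ y in (2 * (X : ℝ))..(2 * X + H / 2), ‖Mw G y h θ‖ ^ 2 ≤ ((h + 1) * (4 * L)) ^ 2 * (H / 2) := by
      refine (le_abs_self _).trans ?_
      rw [← Real.norm_eq_abs]
      refine (intervalIntegral.norm_integral_le_of_norm_le_const fun y _ => hfb' y).trans (le_of_eq ?_)
      rw [show 2 * (X : ℝ) + H / 2 - 2 * X = H / 2 by ring, abs_of_pos (by linarith only [hs0, hs, hh1, hhH])]
    linarith only [hmr, g1, g2]
  -- numbers
  have hc1 : 0 ≤ 3 * (H / h ^ 2) := by positivity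
  have u1 : ∫ x in (X : ℝ)..(2 * X), ‖Mw G x H (θ + β)‖ ^ 2 ≤
      3 * (H / h ^ 2) * (H * (X * h ^ 2 / L ^ (A + 2) + H * ((h + 1) * (4 * L)) ^ 2)) + X * K1 := by
    refine t1.trans (add_le_add (mul_le_mul_of_nonneg_left (t2.trans ?_) hc1) le_rfl)
    exact mul_le_mul_of_nonneg_left t3 hH0.le
  refine u1.trans ?_
  have q1 : 3 * (H / h ^ 2) * (H * (X * h ^ 2 / L ^ (A + 2))) = 3 * (X * H ^ 2) / L ^ (A + 2) := by
    field_simp
  have q2 : 3 * (H / h ^ 2) * (H * (H * ((h + 1) * (4 * L)) ^ 2)) ≤ 192 * (X * H ^ 2) / L ^ (A + 1) := by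
    have r1 : ((h + 1) * (4 * L)) ^ 2 ≤ (2 * h) ^ 2 * (16 * L ^ 2) := by
      have : (h + 1) ^ 2 ≤ (2 * h) ^ 2 := pow_le_pow_left₀ (by linarith only [hs0, hs, hh1]) (by linarith only [hh1]) 2
      calc ((h + 1) * (4 * L)) ^ 2 = (h + 1) ^ 2 * (16 * L ^ 2) := by ring
        _ ≤ (2 * h) ^ 2 * (16 * L ^ 2) := mul_le_mul_of_nonneg_right this (by positivity)
    have r2 : 3 * (H / h ^ 2) * (H * (H * ((h + 1) * (4 * L)) ^ 2)) ≤
        3 * (H / h ^ 2) * (H * (H * ((2 * h) ^ 2 * (16 * L ^ 2)))) := by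
      gcongr
    refine r2.trans ?_
    have r3 : 3 * (H / h ^ 2) * (H * (H * ((2 * h) ^ 2 * (16 * L ^ 2)))) = 192 * H ^ 2 * (H * L ^ 2) := by
      field_simp
      ring
    rw [r3, le_div_iff₀ (by positivity)]
    calc 192 * H ^ 2 * (H * L ^ 2) * L ^ (A + 1) = 192 * H ^ 2 * (H * L ^ (A + 3)) := by ring
      _ ≤ 192 * H ^ 2 * X := mul_le_mul_of_nonneg_left hHA' (by positivity)
      _ = 192 * (X * H ^ 2) := by ring
  have hβh : |β| * h * L ^ (A + 6) ≤ 1 := by
    have r1 : |β| * H ≤ L ^ E := by rwa [le_div_iff₀ hH0] at hβ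
    have r2 : |β| * h * L ^ (A + 6) * L ^ E ≤ 1 * L ^ E := by
      calc |β| * h * L ^ (A + 6) * L ^ E = |β| * (h * L ^ e) := by rw [he, pow_add]; ring
        _ = |β| * H := by rw [hhe]
        _ ≤ L ^ E := r1
        _ = 1 * L ^ E := by ring
    exact le_of_mul_le_mul_right r2 (by positivity)
  have hLA : L ^ (A + 3) ≤ (L ^ (A + 6)) ^ 2 := by
    rw [← pow_mul]
    exact pow_le_pow_right₀ hL1 (by omega)
  have q3 : X * (3 * (2 * Real.pi * H * (|β| * h) * (4 * L)) ^ 2) ≤ 1920 * (X * H ^ 2) / L ^ (A + 1) := by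
    have r0 : Real.pi ^ 2 ≤ 10 := by
      have := Real.pi_lt_d2
      have := Real.pi_pos
      nlinarith
    have r1 : (|β| * h) ^ 2 * L ^ (A + 3) ≤ 1 := by
      have r2 : (|β| * h) ^ 2 * (L ^ (A + 6)) ^ 2 ≤ 1 := by
        rw [← mul_pow]
        exact pow_le_one₀ (by positivity) hβh
      exact (mul_le_mul_of_nonneg_left hLA (by positivity)).trans r2
    rw [le_div_iff₀ (by positivity)]
    have r4 : X * (3 * (2 * Real.pi * H * (|β| * h) * (4 * L)) ^ 2) * L ^ (A + 1) =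
        192 * (X * H ^ 2) * Real.pi ^ 2 * ((|β| * h) ^ 2 * L ^ (A + 3)) := by ring
    rw [r4]
    have r5 : 0 ≤ 192 * (X * H ^ 2) := by positivity
    calc 192 * (X * H ^ 2) * Real.pi ^ 2 * ((|β| * h) ^ 2 * L ^ (A + 3)) ≤ 192 * (X * H ^ 2) * Real.pi ^ 2 * 1 :=
          mul_le_mul_of_nonneg_left r1 (by positivity)
      _ ≤ 192 * (X * H ^ 2) * 10 * 1 := by gcongr
      _ = 1920 * (X * H ^ 2) := by ring
  have q4 : X * (48 * h ^ 2 * (4 * L) ^ 2) ≤ 768 * (X * H ^ 2) / L ^ (A + 1) := by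
    rw [le_div_iff₀ (by positivity)]
    have r1 : h ^ 2 * L ^ (A + 3) ≤ H ^ 2 := by
      rw [← hhe, mul_pow]
      apply mul_le_mul_of_nonneg_left _ (by positivity)
      rw [← pow_mul]
      exact pow_le_pow_right₀ hL1 (by omega)
    calc X * (48 * h ^ 2 * (4 * L) ^ 2) * L ^ (A + 1) = 768 * X * (h ^ 2 * L ^ (A + 3)) := by ring
      _ ≤ 768 * X * H ^ 2 := mul_le_mul_of_nonneg_left r1 (by positivity)
      _ = 768 * (X * H ^ 2) := by ring
  have q1' : 3 * (X * H ^ 2) / L ^ (A + 2) ≤ 3 * (X * H ^ 2) / L ^ (A + 1) := by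
    apply div_le_div_of_nonneg_left (by positivity) (by positivity)
    exact pow_le_pow_right₀ hL1 (by omega)
  have q5 : 2883 * (X * H ^ 2) / L ^ (A + 1) ≤ X * H ^ 2 / L ^ A := by
    rw [div_le_div_iff₀ (by positivity) (by positivity)]
    have r1 : 0 ≤ X * H ^ 2 * L ^ A := by positivity
    calc 2883 * (X * H ^ 2) * L ^ A = 2883 * (X * H ^ 2 * L ^ A) := by ring
      _ ≤ L * (X * H ^ 2 * L ^ A) := mul_le_mul_of_nonneg_right (by linarith only [hs0, hs, hL3]) r1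
      _ = X * H ^ 2 * L ^ (A + 1) := by ring
  refine le_trans ?_ q5
  have q6 : 3 * (H / h ^ 2) * (H * (X * h ^ 2 / L ^ (A + 2) + H * ((h + 1) * (4 * L)) ^ 2)) + X * K1 =
      3 * (H / h ^ 2) * (H * (X * h ^ 2 / L ^ (A + 2))) + 3 * (H / h ^ 2) * (H * (H * ((h + 1) * (4 * L)) ^ 2)) +
        X * (3 * (2 * Real.pi * H * (|β| * h) * (4 * L)) ^ 2) + X * (48 * h ^ 2 * (4 * L) ^ 2) := by
    rw [hK1]
    ring
  rw [q6, q1]
  have q7 : 2883 * (X * H ^ 2) / L ^ (A + 1) = 3 * (X * H ^ 2) / L ^ (A + 1) + 192 * (X * H ^ 2) / L ^ (A + 1) +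
      1920 * (X * H ^ 2) / L ^ (A + 1) + 768 * (X * H ^ 2) / L ^ (A + 1) := by ring
  rw [q7]
  linarith only [q2, q3, q4, q1']

end Pool.Agent.H43.CH
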