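import Pool.Agent.H43.PS.M24
import Pool.Agent.H43.PS.M27

/-!
# CH MajD: mean square over discrete windows, primes from `S`, cofactor in a residue class

Proof.  `s' = (1+s)/2`, `η` from `cor_g s'`; `var_s (A+2) η`: `b1, K, m0`; `cor_g` (`K`, `B+1`): `m1`; `m = max m0 m1`; `var_s`: `κ1`.  `L = log X`, `f = cl (gP P1 P) c u`, scale `x = 4X/P ≥ X^{0.9}` (`P ≤ exp(L^s)`), so `log x ≥ 0.9 L`,
`P ≤ exp(L^s) ≤ exp((log x)^{s'})`, `c ≤ L^B ≤ (log x)^{B+1}` for large `X`: `cor_g` gives the hypothesis `CorM` of `var_s` (`u`, `M`, `N` arbitrary).  `h' = ⌊X/L^{κ1}⌋₊ ≥ h` (`κ = κ1 + 1`).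
Long windows: `Uw (FS f S) h' j = ∑_{p ∈ S} ∑_{j - h' ≤ p m < j} f(m)`, each inner sum is a difference of two sums `∑_{m ≤ y} f(m)`, `y ≤ 2X/P` (as natural numbers `y ≤ 12 X/P`);
`1_{m ≡ u (c)} = (1/c) ∑_{b < c} ee(b (u - m)/c)` and `SwG_bound s' .. (C' = B+1) (m = 0) (k = κ1 + A + 4)` with `t = 0` (`H43/LM/SwG.lean`; `N = X`): `|∑_{m ≤ y} f(m)| ≤ (X/P)/L^k/2`.
So `|Uw h' j| ≤ #S (X/P)/L^k ≤ X/L^k`, `h' ≥ X/(2 L^{κ1})`, `(Uw h' j/h')^2 ≤ 4 L^{2κ1 - 2k} ≤ 1/L^{A+2}`.  `∑_j (Uw h/h)^2 ≤ 2 ∑ (..-..)^2 + 2 ∑ (Uw h'/h')^2 ≤ 4 X/L^{A+2} ≤ X/L^A`.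
-/

set_option autoImplicit false

namespace Pool.Agent.H43.CH

open Finset MeasureTheory
open Pool.Agent.H53.MIX (VKw)
open Pool.Agent.H91.PK (ee)
open Pool.Agent.H76.MU (Uw log_ge)
open Pool.Agent.H35.W (pb)
open Pool.Agent.H43.LM (gP gP_abs_le mu SwG_bound)

private theorem MajD_ee_add (s t : ℝ) : ee (s + t) = ee s * ee t := Pool.Agent.H91.PK.LSa_ee_add s t

private theorem MajD_ee_pow (t : ℝ) (k : ℕ) : ee (k * t) = ee t ^ k := by
  induction k with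
  | zero => simp [ee]
  | succ k ih =>
    rw [pow_succ, ← ih, ← MajD_ee_add]
    congr 1
    push_cast
    ring

private theorem MajD_ee_int (j : ℤ) : ee (j : ℝ) = 1 := Pool.Agent.H76.EHB.ee_int j

/-- orthogonality of the additive characters -/
private theorem MajD_orth (c n u : ℕ) (hc : 1 ≤ c) :
    ∑ b ∈ range c, ee (-((u : ℝ) * ((b : ℝ) / c))) * ee ((n : ℝ) * ((b : ℝ) / c)) =
      if n % c = u % c then (c : ℂ) else 0 := by
  have hc0 : (c : ℝ) ≠ 0 := by positivity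
  have e1 : ∀ b ∈ range c, ee (-((u : ℝ) * ((b : ℝ) / c))) * ee ((n : ℝ) * ((b : ℝ) / c)) =
      ee (((n : ℝ) - u) / c) ^ b := by
    intro b _
    rw [← MajD_ee_add, ← MajD_ee_pow]
    congr 1
    field_simp
    ring
  rw [Finset.sum_congr rfl e1]
  split_ifs with h
  · have h1 : ((c : ℤ)) ∣ (n : ℤ) - u := by
      have h2 : (u : ℤ) % c = (n : ℤ) % c := by exact_mod_cast h.symm
      exact Int.ModEq.dvd h2
    obtain ⟨k, hk⟩ := h1
    have h3 : ((n : ℝ) - u) / c = (k : ℤ) := by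
      have h4 : (n : ℝ) - u = c * (k : ℝ) := by exact_mod_cast hk
      rw [h4]
      field_simp
    rw [h3, MajD_ee_int]
    simp
  · have hz : ee (((n : ℝ) - u) / c) ^ c = 1 := by
      rw [← MajD_ee_pow]
      have h4 : (c : ℝ) * (((n : ℝ) - u) / c) = (((n : ℤ) - u : ℤ) : ℝ) := by
        push_cast
        field_simp
      rw [h4, MajD_ee_int]
    have hz1 : ee (((n : ℝ) - u) / c) ≠ 1 := by
      intro h1
      unfold ee at h1
      rw [Complex.exp_eq_one_iff] at h1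
      obtain ⟨k, hk⟩ := h1
      have hpi : (2 * (Real.pi : ℂ) * Complex.I) ≠ 0 := by
        simp [Real.pi_ne_zero, Complex.I_ne_zero]
      have h2 : ((((n : ℝ) - u) / c : ℝ) : ℂ) = k := by
        apply mul_left_cancel₀ hpi
        rw [← mul_comm (k : ℂ), ← hk]
        ring
      have h3 : ((n : ℝ) - u) / c = k := by exact_mod_cast h2
      have h4 : (n : ℝ) - u = k * c := by
        rw [div_eq_iff hc0] at h3
        exact h3
      have h5 : (n : ℤ) - u = k * c := by exact_mod_cast h4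
      apply h
      have h6 : ((c : ℤ)) ∣ (n : ℤ) - u := ⟨k, by rw [h5, mul_comm]⟩
      have h7 : (u : ℤ) % c = (n : ℤ) % c := (Int.modEq_iff_dvd.2 h6)
      exact_mod_cast h7.symm
    have h8 := geom_sum_eq hz1 c
    rw [h8, hz]
    simp

private theorem MajD_cl_abs (P1 P c u n : ℕ) : |cl (gP P1 P) c u n| ≤ 1 := by
  unfold cl
  split_ifs
  · exact gP_abs_le P1 P n
  · simp

/-- sums of the function in a residue class -/
private theorem MajD_T (P1 P c u y : ℕ) (B : ℝ) (hc : 1 ≤ c)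
    (hB : ∀ b : ℕ, ‖∑ n ∈ Icc 1 y, (gP P1 P n : ℂ) * ee (-((n : ℝ) * ((b : ℝ) / c))) * ee (-((0 : ℝ) * Real.log n))‖ ≤ B) :
    |∑ n ∈ Icc 1 y, cl (gP P1 P) c u n| ≤ B := by
  have hc0 : (0 : ℝ) < c := by exact_mod_cast hc
  have e1 : ((c : ℂ)) * ((∑ n ∈ Icc 1 y, cl (gP P1 P) c u n : ℝ) : ℂ) =
      ∑ b ∈ range c, ee ((u : ℝ) * ((b : ℝ) / c)) *
        ∑ n ∈ Icc 1 y, (gP P1 P n : ℂ) * ee (-((n : ℝ) * ((b : ℝ) / c))) * ee (-((0 : ℝ) * Real.log n)) := by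
    simp_rw [Finset.mul_sum]
    rw [Finset.sum_comm]
    push_cast
    rw [Finset.mul_sum]
    apply Finset.sum_congr rfl
    intro n _
    have e2 : ∀ b ∈ range c, ee ((u : ℝ) * ((b : ℝ) / c)) *
        ((gP P1 P n : ℂ) * ee (-((n : ℝ) * ((b : ℝ) / c))) * ee (-((0 : ℝ) * Real.log n))) =
        (gP P1 P n : ℂ) * (ee (-((n : ℝ) * ((b : ℝ) / c))) * ee ((u : ℝ) * ((b : ℝ) / c))) := by
      intro b _
      have : ee (-((0 : ℝ) * Real.log n)) = 1 := by
        have h := MajD_ee_int 0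
        simpa using h
      rw [this]
      ring
    rw [Finset.sum_congr rfl e2, ← Finset.mul_sum, MajD_orth c u n hc]
    unfold cl
    by_cases h : n % c = u % c
    · rw [if_pos h, if_pos h.symm]
      ring
    · rw [if_neg h, if_neg (fun h1 => h h1.symm)]
      simp
  have e3 : (c : ℝ) * |∑ n ∈ Icc 1 y, cl (gP P1 P) c u n| ≤ c * B := by
    have h1 : ‖((c : ℂ)) * ((∑ n ∈ Icc 1 y, cl (gP P1 P) c u n : ℝ) : ℂ)‖ =
        (c : ℝ) * |∑ n ∈ Icc 1 y, cl (gP P1 P) c u n| := by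
      rw [norm_mul, Complex.norm_natCast, Complex.norm_real, Real.norm_eq_abs]
    rw [← h1, e1]
    refine (norm_sum_le _ _).trans ?_
    refine (Finset.sum_le_sum (g := fun _ => B) fun b _ => ?_).trans ?_
    · rw [norm_mul, Pool.Agent.H91.PK.LSa_norm_ee, one_mul]
      exact hB b
    · simp
  exact le_of_mul_le_mul_left e3 hc0

/-- the multiples of `p` in a window -/
private theorem MajD_inner (f : ℕ → ℝ) (a b p : ℕ) (ha : 1 ≤ a) (hab : a ≤ b) (hp : 1 ≤ p) :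
    ∑ n ∈ (Ico a b).filter (fun n => p ∣ n), f (n / p) =
      ∑ m ∈ Icc 1 ((b - 1) / p), f m - ∑ m ∈ Icc 1 ((a - 1) / p), f m := by
  have h1 : (a - 1) / p ≤ (b - 1) / p := Nat.div_le_div_right (by omega)
  have h2 : Icc 1 ((b - 1) / p) = Icc 1 ((a - 1) / p) ∪ Ioc ((a - 1) / p) ((b - 1) / p) := by
    generalize (a - 1) / p = y at h1 ⊢
    generalize (b - 1) / p = z at h1 ⊢
    ext n
    simp only [mem_Icc, mem_union, mem_Ioc]
    omega
  have h3 : Disjoint (Icc 1 ((a - 1) / p)) (Ioc ((a - 1) / p) ((b - 1) / p)) := by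
    generalize (a - 1) / p = y
    generalize (b - 1) / p = z
    rw [Finset.disjoint_left]
    intro n h3 h4
    rw [mem_Icc] at h3
    rw [mem_Ioc] at h4
    omega
  rw [h2, Finset.sum_union h3, add_sub_cancel_left]
  symm
  apply Finset.sum_nbij' (fun m => p * m) (fun n => n / p)
  · intro m hm
    rw [mem_Ioc] at hm
    simp only [mem_filter, mem_Ico, dvd_mul_right, and_true]
    have h4 := (Nat.div_lt_iff_lt_mul (by omega : 0 < p)).1 hm.1
    have h5 := (Nat.le_div_iff_mul_le (by omega : 0 < p)).1 hm.2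
    rw [mul_comm] at h4 h5
    omega
  · intro n hn
    simp only [mem_filter, mem_Ico] at hn
    obtain ⟨⟨h4, h5⟩, k, hk⟩ := hn
    subst hk
    rw [Nat.mul_div_cancel_left _ (by omega : 0 < p), mem_Ioc]
    refine ⟨(Nat.div_lt_iff_lt_mul (by omega : 0 < p)).2 ?_, (Nat.le_div_iff_mul_le (by omega : 0 < p)).2 ?_⟩
    · rw [mul_comm]; omega
    · rw [mul_comm]; omega
  · intro m _
    exact Nat.mul_div_cancel_left _ (by omega)
  · intro n hn
    simp only [mem_filter] at hn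
    exact Nat.mul_div_cancel' hn.2
  · intro m _
    rw [Nat.mul_div_cancel_left _ (by omega : 0 < p)]

/-- the window sum of `FS f S` in terms of the inner sums -/
private theorem MajD_Uw (f : ℕ → ℝ) (S : Finset ℕ) (h j : ℕ) :
    Uw (FS f S) h j = ∑ p ∈ S, ∑ n ∈ (Ico (j - h) j).filter (fun n => p ∣ n), f (n / p) := by
  unfold Uw FS
  simp_rw [Finset.sum_filter]
  exact Finset.sum_comm

private theorem MajD_card (P : ℕ) : ((pb P).card : ℝ) ≤ P := by
  have h : (pb P).card ≤ (Ioc P (2 * P)).card := Finset.card_filter_le _ _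
  rw [Nat.card_Ioc] at h
  exact_mod_cast (by omega : (pb P).card ≤ P)

/-- the long windows -/
private theorem MajD_long (f : ℕ → ℝ) (S : Finset ℕ) (X P h j : ℕ) (D : ℝ) (hS : S ⊆ pb P) (hP : 1 ≤ P)
    (hhj : h < j) (hj : j ≤ 2 * X)
    (hT : ∀ y : ℕ, y ≤ 12 * X / P → |∑ n ∈ Icc 1 y, f n| ≤ D / 2) : |Uw (FS f S) h j| ≤ P * D := by
  have hD : 0 ≤ D := by
    have := hT 0 (Nat.zero_le _)
    have h2 := (abs_nonneg _).trans this
    linarith only [h2]
  rw [MajD_Uw]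
  refine (Finset.abs_sum_le_sum_abs _ _).trans ?_
  refine (Finset.sum_le_sum (g := fun _ => D) fun p hp => ?_).trans ?_
  · have hp1 := hS hp
    unfold pb at hp1
    rw [mem_filter, mem_Ioc] at hp1
    rw [MajD_inner f (j - h) j p (by omega) (by omega) (by omega)]
    have h1 : ∀ z : ℕ, z ≤ 2 * X → z / p ≤ 12 * X / P := by
      intro z hz
      calc z / p ≤ z / P := Nat.div_le_div_left (by omega) (by omega)
        _ ≤ 12 * X / P := Nat.div_le_div_right (by omega)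
    refine (abs_sub _ _).trans ?_
    have h2 := hT _ (h1 (j - 1) (by omega))
    have h3 := hT _ (h1 (j - h - 1) (by omega))
    linarith only [h2, h3]
  · rw [Finset.sum_const, nsmul_eq_mul]
    have h1 : (S.card : ℝ) ≤ (pb P).card := by exact_mod_cast Finset.card_le_card hS
    exact mul_le_mul_of_nonneg_right (h1.trans (MajD_card P)) hD

private theorem MajD_large (s : ℝ) (hs0 : 0 < s) (hs : s < 1) (B : ℕ) (x0 : ℝ) : ∃ L0 : ℝ, ∀ L : ℝ, L0 ≤ L →
    4 ≤ L ∧ 2 ^ (B + 1) ≤ L ∧ L ^ s ≤ L / 4 ∧ L ^ s ≤ (L / 2) ^ ((1 + s) / 2) ∧ x0 ≤ Real.exp (L / 2) := by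
  have h1 : Filter.Tendsto (fun y : ℝ => y ^ ((1 - s) / 2)) Filter.atTop Filter.atTop :=
    tendsto_rpow_atTop (by linarith only [hs])
  have h2 := h1.eventually_ge_atTop 2
  have h3 : Filter.Tendsto (fun y : ℝ => Real.exp (y / 2)) Filter.atTop Filter.atTop :=
    Real.tendsto_exp_atTop.comp (Filter.tendsto_id.atTop_div_const (by norm_num))
  have h4 := h3.eventually_ge_atTop x0
  obtain ⟨L0, hL0⟩ := Filter.eventually_atTop.1
    (((Filter.eventually_ge_atTop (4 : ℝ)).and (Filter.eventually_ge_atTop ((2 : ℝ) ^ (B + 1)))).and (h2.and h4))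
  refine ⟨L0, fun L hL => ?_⟩
  obtain ⟨⟨a1, a2⟩, a3, a4⟩ := hL0 L hL
  have hLpos : 0 < L := by linarith only [hs0, hs, a1]
  have hv : 0 < L ^ s := Real.rpow_pos_of_pos hLpos _
  have e1 : L ^ s * L ^ ((1 - s) / 2) * L ^ ((1 - s) / 2) = L := by
    rw [← Real.rpow_add hLpos, ← Real.rpow_add hLpos]
    have : s + (1 - s) / 2 + (1 - s) / 2 = 1 := by ring
    rw [this, Real.rpow_one]
  have e2 : L ^ s * L ^ ((1 - s) / 2) = L ^ ((1 + s) / 2) := by
    rw [← Real.rpow_add hLpos]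
    congr 1
    ring
  have h5 : 2 * L ^ s ≤ L ^ s * L ^ ((1 - s) / 2) := by
    rw [mul_comm]
    exact mul_le_mul_of_nonneg_left a3 hv.le
  refine ⟨a1, a2, ?_, ?_, a4⟩
  · have h6 : L ^ s * L ^ ((1 - s) / 2) * 2 ≤ L ^ s * L ^ ((1 - s) / 2) * L ^ ((1 - s) / 2) :=
      mul_le_mul_of_nonneg_left a3 (by positivity)
    rw [e1] at h6
    linarith only [h5, h6]
  · rw [Real.div_rpow hLpos.le (by norm_num), ← e2]
    have h7 : (2 : ℝ) ^ ((1 + s) / 2) ≤ 2 := by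
      calc (2 : ℝ) ^ ((1 + s) / 2) ≤ 2 ^ (1 : ℝ) :=
            Real.rpow_le_rpow_of_exponent_le (by norm_num) (by linarith only [hs])
        _ = 2 := Real.rpow_one 2
    rw [le_div_iff₀ (by positivity)]
    calc L ^ s * 2 ^ ((1 + s) / 2) ≤ L ^ s * 2 := mul_le_mul_of_nonneg_left h7 hv.le
      _ = 2 * L ^ s := by ring
      _ ≤ _ := h5

/-- the scale of the cofactor -/
private theorem MajD_scale (X P : ℕ) (L : ℝ) (hL : L = Real.log X) (hX : 1 ≤ X) (hP : 1 ≤ P) (h4 : 4 ≤ L)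
    (hPs : (P : ℝ) ≤ Real.exp (L / 4)) :
    Real.exp (L / 2) ≤ ((4 * X / P : ℕ) : ℝ) ∧ L / 2 ≤ Real.log ((4 * X / P : ℕ) : ℝ) := by
  have hX0 : (0 : ℝ) < X := by exact_mod_cast hX
  have hP0 : (0 : ℝ) < P := by exact_mod_cast hP
  have hXe : (X : ℝ) = Real.exp L := by rw [hL, Real.exp_log hX0]
  have h1 : (4 * X : ℝ) / P < ((4 * X / P : ℕ) : ℝ) + 1 := by
    rw [div_lt_iff₀ hP0]
    have h2 : 4 * X < P * (4 * X / P + 1) := Nat.lt_mul_div_succ _ (by omega)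
    have h3 : ((4 * X : ℕ) : ℝ) < ((P * (4 * X / P + 1) : ℕ) : ℝ) := by exact_mod_cast h2
    push_cast at h3
    linarith only [h3]
  have h2 : Real.exp (3 * L / 4) ≤ X / P := by
    rw [le_div_iff₀ hP0, hXe]
    calc Real.exp (3 * L / 4) * P ≤ Real.exp (3 * L / 4) * Real.exp (L / 4) :=
          mul_le_mul_of_nonneg_left hPs (Real.exp_pos _).le
      _ = Real.exp L := by rw [← Real.exp_add]; congr 1; ring
  have h3 : Real.exp (L / 2) ≤ Real.exp (3 * L / 4) := Real.exp_le_exp.mpr (by linarith only [h4])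
  have h5 : 1 ≤ Real.exp (L / 2) := Real.one_le_exp (by linarith only [h4])
  have h6 : Real.exp (L / 2) ≤ ((4 * X / P : ℕ) : ℝ) := by
    have : (4 * X : ℝ) / P = 4 * (X / P) := by ring
    rw [this] at h1
    linarith only [h1, h2, h3, h5]
  refine ⟨h6, ?_⟩
  rw [Real.le_log_iff_exp_le (by linarith only [h5, h6])]
  exact h6

theorem maj_d_h (h_cor_g : cor_g_P) (h_var_s : var_s_P) (hV : VKw (19 / 20)) (s : ℝ) (hs0 : 0 < s) (hs : s < 1) (A B : ℕ) : ∃ b κ X0 : ℕ, ∀ X : ℕ, X0 ≤ X →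
    ∀ (P1 P h c u : ℕ) (S : Finset ℕ), Real.log X ^ b ≤ P → (P : ℝ) ≤ Real.exp (Real.log X ^ s) → P ^ 10 ≤ h →
      (h : ℝ) ≤ X / Real.log X ^ κ → S ⊆ pb P → 1 ≤ c → (c : ℝ) ≤ Real.log X ^ B →
      ∑ j ∈ Ioc X (2 * X), (Uw (FS (cl (gP P1 P) c u) S) h j) ^ 2 ≤ X * (h : ℝ) ^ 2 / Real.log X ^ A := by
  have hs' : (1 + s) / 2 < 1 := by linarith only [hs]
  have hs0' : 0 < (1 + s) / 2 := by linarith only [hs0, hs]
  obtain ⟨η, hη0, hη1, hcor⟩ := h_cor_g hV ((1 + s) / 2) hs0' hs'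
  obtain ⟨b1, K, m0, hvar⟩ := h_var_s (A + 2) η hη0 (by linarith only [hη0, hη1])
  obtain ⟨m1, hm1⟩ := hcor K (B + 1)
  obtain ⟨κ1, X1, hvar1⟩ := hvar (max m0 m1) (le_max_left _ _)
  obtain ⟨x0, hcor1⟩ := hm1 (max m0 m1) (le_max_right _ _)
  obtain ⟨N0, hSw⟩ := SwG_bound s hs0 hs B 0 (κ1 + A + 4)
  obtain ⟨L0, hL0⟩ := MajD_large s hs0 hs B x0
  obtain ⟨X2, hX2⟩ := log_ge L0
  refine ⟨b1, κ1 + 1, max (max X1 N0) (max X2 1), fun X hX P1 P h c u S hb hP hPh hh hS hc1 hc => ?_⟩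
  have hXX1 : X1 ≤ X := (le_max_left _ _).trans ((le_max_left _ _).trans hX)
  have hXN0 : N0 ≤ X := (le_max_right _ _).trans ((le_max_left _ _).trans hX)
  have hXX2 : X2 ≤ X := (le_max_left _ _).trans ((le_max_right _ _).trans hX)
  have hX1 : 1 ≤ X := (le_max_right _ _).trans ((le_max_right _ _).trans hX)
  obtain ⟨l4, lB, l1, l2, l3⟩ := hL0 _ (hX2 X hXX2)
  have hcorX := hcor1
  have hvarX := hvar1 X hXX1 P h
  have hSwX := hSw X hXN0 P1 P
  set L := Real.log X with hL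
  have hLpos : 0 < L := by linarith only [hη0, hη1, l4]
  have hL1 : 1 ≤ L := by linarith only [hη0, hη1, l4]
  have hX0 : (0 : ℝ) < X := by exact_mod_cast hX1
  have hP1 : 1 ≤ P := by
    have h1 : (1 : ℝ) ≤ P := (one_le_pow₀ hL1).trans hb
    exact_mod_cast h1
  have hP0 : (0 : ℝ) < P := by exact_mod_cast hP1
  obtain ⟨g1, g2⟩ := MajD_scale X P L hL hX1 hP1 l4 (hP.trans (Real.exp_le_exp.mpr l1))
  have hxx0 : x0 ≤ 4 * X / P := by
    have : (x0 : ℝ) ≤ ((4 * X / P : ℕ) : ℝ) := l3.trans g1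
    exact_mod_cast this
  -- the hypothesis on correlations
  have hC := hcorX (4 * X / P) hxx0 P1 P c u (X / (4 * P)) (4 * X / P)
    (hP.trans (Real.exp_le_exp.mpr (l2.trans (Real.rpow_le_rpow (by linarith only [hη0, hη1, l4]) g2 hs0'.le)))) hc1
    (hc.trans (by
      calc L ^ B ≤ (L / 2) ^ (B + 1) := by
            rw [div_pow, le_div_iff₀ (by positivity), pow_succ L B]
            exact mul_le_mul_of_nonneg_left lB (by positivity)
        _ ≤ _ := pow_le_pow_left₀ (by linarith only [hη0, hη1, l4]) g2 _)) le_rfl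
  have hh1 : 1 ≤ h := (Nat.one_le_pow _ _ hP1).trans hPh
  have hh0 : (0 : ℝ) < h := by exact_mod_cast hh1
  have hκ : (X : ℝ) / L ^ (κ1 + 1) ≤ X / L ^ κ1 :=
    div_le_div_of_nonneg_left hX0.le (by positivity) (pow_le_pow_right₀ hL1 (by omega))
  have hy1 : (h : ℝ) ≤ X / L ^ κ1 := hh.trans hκ
  set h' := ⌊(X : ℝ) / L ^ κ1⌋₊ with hh'
  have hhh' : h ≤ h' := Nat.le_floor hy1
  have hh'1 : (h' : ℝ) ≤ X / L ^ κ1 := Nat.floor_le (by positivity)
  have hh'X : h' ≤ X := by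
    have h1 : (h' : ℝ) ≤ X := hh'1.trans (div_le_self hX0.le (one_le_pow₀ hL1))
    exact_mod_cast h1
  have hh'0 : (0 : ℝ) < h' := by
    have : 0 < h' := by omega
    exact_mod_cast this
  have hh'2 : (X : ℝ) / L ^ κ1 / 2 ≤ h' := by
    have h1 : (X : ℝ) / L ^ κ1 < h' + 1 := Nat.lt_floor_add_one _
    have h2 : (1 : ℝ) ≤ h' := by
      have : 1 ≤ h' := by omega
      exact_mod_cast this
    linarith only [h1, h2]
  have hV1 := hvarX h' S (cl (gP P1 P) c u) hb hPh hhh' hh'1 hS (MajD_cl_abs P1 P c u) hC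
  -- the long windows
  have hT : ∀ y : ℕ, y ≤ 12 * X / P → |∑ n ∈ Icc 1 y, cl (gP P1 P) c u n| ≤ (X / P : ℝ) / L ^ (κ1 + A + 4) / 2 := by
    intro y hy
    apply MajD_T P1 P c u y _ hc1
    intro b
    exact hSwX hP1 hP c b 0 hc1 hc (by simp) y hy
  have hLong : ∀ j ∈ Ioc X (2 * X), (Uw (FS (cl (gP P1 P) c u) S) h' j / h') ^ 2 ≤ 1 / L ^ (A + 2) := by
    intro j hj
    rw [mem_Ioc] at hj
    have h1 := MajD_long (cl (gP P1 P) c u) S X P h' j _ hS hP1 (by omega) hj.2 hT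
    have e1 : (P : ℝ) * ((X / P : ℝ) / L ^ (κ1 + A + 4)) = X / L ^ (κ1 + A + 4) := by
      field_simp
    rw [e1] at h1
    have h2 : |Uw (FS (cl (gP P1 P) c u) S) h' j / h'| ≤ 2 / L ^ (A + 4) := by
      rw [abs_div, abs_of_pos hh'0, div_le_iff₀ hh'0]
      calc |Uw (FS (cl (gP P1 P) c u) S) h' j| ≤ X / L ^ (κ1 + A + 4) := h1
        _ = 2 / L ^ (A + 4) * (X / L ^ κ1 / 2) := by
            rw [show κ1 + A + 4 = κ1 + (A + 4) by ring, pow_add]
            field_simp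
        _ ≤ _ := mul_le_mul_of_nonneg_left hh'2 (by positivity)
    rw [← sq_abs]
    calc |Uw (FS (cl (gP P1 P) c u) S) h' j / h'| ^ 2 ≤ (2 / L ^ (A + 4)) ^ 2 :=
          pow_le_pow_left₀ (abs_nonneg _) h2 2
      _ ≤ 1 / L ^ (A + 2) := by
          rw [div_pow, div_le_div_iff₀ (by positivity) (by positivity), one_mul, ← pow_mul]
          have e2 : L ^ ((A + 4) * 2) = L ^ (A + 2) * (L ^ (A + 4) * L ^ 2) := by
            rw [← pow_add, ← pow_add]
            congr 1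
            ring
          rw [e2]
          have h3 : (1 : ℝ) ≤ L ^ (A + 4) := one_le_pow₀ hL1
          have h4 : (4 : ℝ) ≤ L ^ 2 := by nlinarith only [hη1, l4, hη0]
          have h5 : (4 : ℝ) ≤ L ^ (A + 4) * L ^ 2 := by nlinarith only [h4, h3]
          have h6 : 0 < L ^ (A + 2) := by positivity
          nlinarith only [hη0, hη1, h5, h6]
  -- conclusion
  have hfin : ∑ j ∈ Ioc X (2 * X), (Uw (FS (cl (gP P1 P) c u) S) h j / h) ^ 2 ≤ X / L ^ A := by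
    have h1 : ∀ j ∈ Ioc X (2 * X), (Uw (FS (cl (gP P1 P) c u) S) h j / h) ^ 2 ≤
        2 * (Uw (FS (cl (gP P1 P) c u) S) h j / h - Uw (FS (cl (gP P1 P) c u) S) h' j / h') ^ 2 +
          2 * (1 / L ^ (A + 2)) := by
      intro j hj
      have h2 := hLong j hj
      nlinarith only [h2, sq_nonneg (Uw (FS (cl (gP P1 P) c u) S) h j / h - 2 * (Uw (FS (cl (gP P1 P) c u) S) h' j / h'))]
    refine (Finset.sum_le_sum h1).trans ?_
    rw [Finset.sum_add_distrib, ← Finset.mul_sum, Finset.sum_const, Nat.card_Ioc, nsmul_eq_mul]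
    have e3 : ((2 * X - X : ℕ) : ℝ) = X := by
      have : 2 * X - X = X := by omega
      rw [this]
    rw [e3]
    have h7 : (X : ℝ) / L ^ (A + 2) * 4 ≤ X / L ^ A := by
      rw [pow_add, div_mul_eq_mul_div, div_le_div_iff₀ (by positivity) (by positivity)]
      have h4 : (4 : ℝ) ≤ L ^ 2 := by nlinarith only [hη1, l4, hη0]
      have h8 : 0 < (X : ℝ) * L ^ A := by positivity
      nlinarith only [hη0, hη1, h4, h8]
    calc 2 * ∑ j ∈ Ioc X (2 * X), (Uw (FS (cl (gP P1 P) c u) S) h j / h - Uw (FS (cl (gP P1 P) c u) S) h' j / h') ^ 2 +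
          X * (2 * (1 / L ^ (A + 2))) ≤ 2 * (X / L ^ (A + 2)) + X * (2 * (1 / L ^ (A + 2))) := by
            linarith only [hV1]
      _ = X / L ^ (A + 2) * 4 := by ring
      _ ≤ _ := h7
  have e4 : ∑ j ∈ Ioc X (2 * X), (Uw (FS (cl (gP P1 P) c u) S) h j) ^ 2 =
      (h : ℝ) ^ 2 * ∑ j ∈ Ioc X (2 * X), (Uw (FS (cl (gP P1 P) c u) S) h j / h) ^ 2 := by
    rw [Finset.mul_sum]
    apply Finset.sum_congr rfl
    intro j _
    rw [div_pow]
    field_simp
  rw [e4]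
  calc (h : ℝ) ^ 2 * ∑ j ∈ Ioc X (2 * X), (Uw (FS (cl (gP P1 P) c u) S) h j / h) ^ 2 ≤ (h : ℝ) ^ 2 * (X / L ^ A) :=
        mul_le_mul_of_nonneg_left hfin (by positivity)
    _ = X * (h : ℝ) ^ 2 / L ^ A := by ring

end Pool.Agent.H43.CH
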