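import Pool.Agent.H43.PS.H43.CH.LvG
import Pool.Agent.H43.PS.H43.CH.MajA
import Pool.Agent.H43.PS.H43.CH.MajD
import Pool.Agent.H43.PS.M15
import Pool.Agent.H43.PS.M22
import Pool.Agent.H43.PS.M23
import Pool.Agent.H43.PS.M25
import Pool.Agent.H43.PS.M28
import Pool.Agent.H43.PS.M29
import Pool.Agent.H43.PS.M30
import Pool.Agent.H43.PS.M31
import Pool.Agent.H43.PS.M32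

/-! # the chain -/

set_option autoImplicit false

namespace Pool.Agent.H43.CH

open Finset MeasureTheory ProbabilityTheory
open Pool.Agent.H91.PK (ee)
open Pool.Agent.H53.MIX (VKw)
open Pool.Agent.H35.W (pb cor)
open Pool.Agent.H43.LM (mu gP Mw Win)
open Pool.Agent.H76.MU (nrm BS CorM Uw)

theorem midc (hV : VKw (19 / 20)) : ∃ η : ℝ, 0 < η ∧ η ≤ 1 / 10 ∧ ∀ K B : ℕ, ∃ K' x0 : ℕ, ∀ x : ℕ, x0 ≤ x →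
    ∀ (y Z a b c r : ℕ) (w : ℕ → ℝ) (T η' : ℝ) (Bs : Set ℝ), 1 ≤ c → (c : ℝ) ≤ Real.log x ^ B →
      Real.exp (Real.log x ^ (19 / 20 : ℝ)) ≤ a → (x : ℝ) ^ (1 / 20 : ℝ) ≤ Z →
      (x : ℝ) ^ (1 / 2 : ℝ) ≤ y → y ≤ x → (∀ n, |w n| ≤ 1) →
      Real.log x ^ K' ≤ T → T ≤ x → 0 ≤ η' → η' ≤ η → BS η' T Bs →
      nrm Bs (fun t => ∑ p ∈ pIc a (min b y) c r, ((Real.log p : ℝ) : ℂ) * ee (t * Real.log p) *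
          ∑ n ∈ Ioc Z (y / p), ((w n : ℝ) : ℂ) * ee (t * Real.log n)) ≤ y / Real.log x ^ K :=
  midc_h psr_vk hV

theorem longc (hV : VKw (19 / 20)) : ∃ η : ℝ, 0 < η ∧ η ≤ 1 / 10 ∧ ∀ K B : ℕ,
    ∃ K' x0 : ℕ, ∀ x : ℕ, x0 ≤ x → ∀ (c r a b : ℕ) (T η' : ℝ) (Bs : Set ℝ), 1 ≤ c → (c : ℝ) ≤ Real.log x ^ B →
      (a : ℝ) ≤ (x : ℝ) ^ (1 / 4 : ℝ) → (x : ℝ) ^ (2 / 3 : ℝ) ≤ b → b ≤ x →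
      Real.log x ^ K' ≤ T → T ≤ x → 0 ≤ η' → η' ≤ η → BS η' T Bs →
      nrm Bs (fun t => PSr c r a b t) ≤ b / Real.log x ^ K :=
  longc_h hV

theorem logsumc (hV : VKw (19 / 20)) : ∃ η : ℝ, 0 < η ∧ η ≤ 1 / 10 ∧ ∀ K B : ℕ,
    ∃ K' x0 : ℕ, ∀ x : ℕ, x0 ≤ x → ∀ (c D1 y : ℕ) (T η' ψ : ℝ) (Bs : Set ℝ), 1 ≤ c → (c : ℝ) ≤ Real.log x ^ B →
      D1 = ⌈Real.exp (Real.log x ^ (19 / 20 : ℝ))⌉₊ → (x : ℝ) ^ (3 / 4 : ℝ) ≤ y → y ≤ x →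
      Real.log x ^ K' ≤ T → T ≤ x → 0 ≤ η' → η' ≤ η → BS η' T Bs → 0 ≤ ψ →
      (∀ u : ℕ, Nat.Coprime u c → ∀ z : ℕ, (y : ℝ) / (2 * D1) ≤ z → z ≤ y → nrm Bs (SU c u z) ≤ ψ * z) →
      ∀ u : ℕ, Nat.Coprime u c →
        nrm Bs (fun t => ∑ n ∈ (Icc 1 y).filter (fun n => n % c = u % c),
            ((mu n * Real.log n : ℝ) : ℂ) * ee (t * Real.log n))
          ≤ (2 * Real.log x ^ (19 / 20 : ℝ) * ψ + 1 / Real.log x ^ K) * y :=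
  logsumc_h longc midc hV

theorem lvc (hV : VKw (19 / 20)) : ∃ η : ℝ, 0 < η ∧ η ≤ 1 / 10 ∧ ∀ K B : ℕ,
    ∃ K' x0 : ℕ, ∀ x : ℕ, x0 ≤ x → ∀ (c u y : ℕ) (T : ℝ) (Bs : Set ℝ), 1 ≤ c → (c : ℝ) ≤ Real.log x ^ B →
      Nat.Coprime u c → (x : ℝ) ^ (4 / 5 : ℝ) ≤ y → y ≤ x →
      Real.log x ^ K' ≤ T → T ≤ x → BS η T Bs → nrm Bs (SU c u y) ≤ y / Real.log x ^ K :=
  lvc_h logsumc hV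

theorem lvt (hV : VKw (19 / 20)) : ∃ η : ℝ, 0 < η ∧ η ≤ 1 / 10 ∧ ∀ K B : ℕ,
    ∃ K' x0 : ℕ, ∀ x : ℕ, x0 ≤ x → ∀ (c b y : ℕ) (T : ℝ) (Bs : Set ℝ), 1 ≤ c → (c : ℝ) ≤ Real.log x ^ B →
      (x : ℝ) ^ (5 / 6 : ℝ) ≤ y → y ≤ x →
      Real.log x ^ K' ≤ T → T ≤ x → BS η T Bs → nrm Bs (ST c b y) ≤ y / Real.log x ^ K :=
  lvt_h lvc hV

open Classical in
theorem lvg (hV : VKw (19 / 20)) (s : ℝ) (hs0 : 0 < s) (hs : s < 1) : ∃ η : ℝ, 0 < η ∧ η ≤ 1 / 10 ∧ ∀ K B : ℕ,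
    ∃ K' x0 : ℕ, ∀ x : ℕ, x0 ≤ x → ∀ (P1 P c b y : ℕ) (T : ℝ) (Bs : Set ℝ), (P : ℝ) ≤ Real.exp (Real.log x ^ s) →
      1 ≤ c → (c : ℝ) ≤ Real.log x ^ B → y ≤ x →
      Real.log x ^ K' ≤ T → T ≤ x → BS η T Bs → nrm Bs (GT P1 P c b y) ≤ x / Real.log x ^ K :=
  lvg_h lvt hV s hs0 hs

theorem cor_g (hV : VKw (19 / 20)) (s : ℝ) (hs0 : 0 < s) (hs : s < 1) : ∃ η : ℝ, 0 < η ∧ η ≤ 1 / 10 ∧ ∀ K B : ℕ,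
    ∃ m1 : ℕ, ∀ m : ℕ, m1 ≤ m → ∃ x0 : ℕ, ∀ x : ℕ, x0 ≤ x → ∀ P1 P c u M N : ℕ,
      (P : ℝ) ≤ Real.exp (Real.log x ^ s) → 1 ≤ c → (c : ℝ) ≤ Real.log x ^ B → N ≤ x →
      CorM x m K η N M (cutf (cl (gP P1 P) c u) M N) :=
  cor_g_h lvg hV s hs0 hs

theorem var_s (A : ℕ) (η : ℝ) (hη : 0 < η) (hη1 : η ≤ 1) : ∃ b K m0 : ℕ, ∀ m : ℕ, m0 ≤ m → ∃ κ X0 : ℕ,
    ∀ X : ℕ, X0 ≤ X → ∀ (P h h' : ℕ) (S : Finset ℕ) (f : ℕ → ℝ), Real.log X ^ b ≤ P → P ^ 10 ≤ h → h ≤ h' →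
      (h' : ℝ) ≤ X / Real.log X ^ κ → S ⊆ pb P → (∀ n, |f n| ≤ 1) →
      CorM (4 * X / P) m K η (4 * X / P) (X / (4 * P)) (cutf f (X / (4 * P)) (4 * X / P)) →
      ∑ j ∈ Ioc X (2 * X), (Uw (FS f S) h j / h - Uw (FS f S) h' j / h') ^ 2 ≤ X / Real.log X ^ A :=
  var_s_h jms A η hη hη1

theorem maj_d (hV : VKw (19 / 20)) (s : ℝ) (hs0 : 0 < s) (hs : s < 1) (A B : ℕ) : ∃ b κ X0 : ℕ, ∀ X : ℕ, X0 ≤ X →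
    ∀ (P1 P h c u : ℕ) (S : Finset ℕ), Real.log X ^ b ≤ P → (P : ℝ) ≤ Real.exp (Real.log X ^ s) → P ^ 10 ≤ h →
      (h : ℝ) ≤ X / Real.log X ^ κ → S ⊆ pb P → 1 ≤ c → (c : ℝ) ≤ Real.log X ^ B →
      ∑ j ∈ Ioc X (2 * X), (Uw (FS (cl (gP P1 P) c u) S) h j) ^ 2 ≤ X * (h : ℝ) ^ 2 / Real.log X ^ A :=
  maj_d_h cor_g var_s hV s hs0 hs A B

theorem maj_r (hV : VKw (19 / 20)) (s : ℝ) (hs0 : 0 < s) (hs : s < 1) (A B : ℕ) : ∃ b κ X0 : ℕ, ∀ X : ℕ, X0 ≤ X →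
    ∀ (P1 P c a : ℕ) (S : Finset ℕ) (h : ℝ), Real.log X ^ b ≤ P → (P : ℝ) ≤ Real.exp (Real.log X ^ s) → (P : ℝ) ^ 11 ≤ h →
      h ≤ X / Real.log X ^ κ → S ⊆ pb P → 1 ≤ c → (c : ℝ) ≤ Real.log X ^ B →
      ∫ x in Set.Icc (X : ℝ) (2 * X), ‖Mw (FS (gP P1 P) S) x h ((a : ℝ) / c)‖ ^ 2 ≤ X * h ^ 2 / Real.log X ^ A :=
  maj_r_h maj_d hV s hs0 hs A B

theorem maj_a (hV : VKw (19 / 20)) (s : ℝ) (hs0 : 0 < s) (hs : s < 1) (A B E : ℕ) : ∃ b κ X0 : ℕ, ∀ X : ℕ, X0 ≤ X →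
    ∀ (P1 P c a : ℕ) (S : Finset ℕ) (H β : ℝ), Real.log X ^ b ≤ P → (P : ℝ) ≤ Real.exp (Real.log X ^ s) → (P : ℝ) ^ 12 ≤ H →
      H ≤ X / Real.log X ^ κ → S ⊆ pb P → 1 ≤ c → (c : ℝ) ≤ Real.log X ^ B → |β| ≤ Real.log X ^ E / H →
      ∫ x in Set.Icc (X : ℝ) (2 * X), ‖Mw (FS (gP P1 P) S) x H ((a : ℝ) / c + β)‖ ^ 2 ≤ X * H ^ 2 / Real.log X ^ A :=
  maj_a_h maj_r hV s hs0 hs A B E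

theorem fix_a (hV : VKw (19 / 20)) (s : ℝ) (hs0 : 0 < s) (hs : s < 1) (A : ℕ) : ∃ b κ X0 : ℕ, ∀ X : ℕ, X0 ≤ X →
    ∀ (P1 P : ℕ) (S : Finset ℕ) (H α : ℝ), Real.log X ^ b ≤ P → (P : ℝ) ≤ Real.exp (Real.log X ^ s) → (P : ℝ) ^ 12 ≤ H →
      H ≤ X / Real.log X ^ κ → S ⊆ pb P →
      ∫ x in Set.Icc (X : ℝ) (2 * X), ‖Mw (FS (gP P1 P) S) x H α‖ ^ 2 ≤ X * H ^ 2 / Real.log X ^ A :=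
  fix_a_h maj_a hV s hs0 hs A

theorem msq (hV : VKw (19 / 20)) (s : ℝ) (hs0 : 0 < s) (hs : s < 1) (A : ℕ) : ∃ b κ X0 : ℕ, ∀ X : ℕ, X0 ≤ X →
    ∀ (Q : ℕ → ℕ) (J U V : ℕ) (H α : ℝ), Real.log X ^ b ≤ Q 0 → Monotone Q → (∀ j, Q (j + 1) ≤ 2 * Q j) →
      (Q J : ℝ) ≤ Real.exp (Real.log X ^ s) → (J : ℝ) ≤ Real.log X ^ 5 → (Q J : ℝ) ^ 12 ≤ H → H ≤ X / Real.log X ^ κ →
      X ≤ U → V ≤ 4 * X →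
      ∫ x : ℝ, ‖Mw (cutf (AN Q J) U V) x H α‖ ^ 2 ≤ X * H ^ 2 / Real.log X ^ A :=
  msq_h fix_a hV s hs0 hs A

theorem cd0 (A Bd : ℕ) (δ ε : ℝ) (hδ : 0 < δ) (hδ1 : δ < 1) (hε : 0 < ε) (hε1 : ε < 1) : ∃ C : ℝ, 1 ≤ C ∧ ∃ X0 : ℕ, ∀ X : ℕ, X0 ≤ X →
    ∀ H0 : ℕ, C * Real.log (Real.log X) ≤ Real.log H0 → ∃ a : ℕ → ℝ, Sp A Bd (C * sav X H0 δ) ε X H0 a :=
  cd0_h msq A Bd δ ε hδ hδ1 hε hε1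

theorem cd1 (k B : ℕ) (δ ε : ℝ) (hδ : 0 < δ) (hδ1 : δ < 1) (hε : 0 < ε) (hε1 : ε < 1) : ∃ (C : ℝ) (X0 : ℕ), 1 ≤ C ∧
    ∀ X : ℕ, X0 ≤ X → ∀ H : ℕ, 2 ≤ H → (H : ℝ) ≤ (X : ℝ) ^ (1 - ε) →
      ∀ G : ℕ → ℂ, (∀ n ∈ Ioc X (2 * X), ‖G n‖ ≤ 1) →
        ∑ h ∈ Fintype.piFinset (fun _ : Fin k => Icc 1 H), ‖∑ n ∈ Ioc X (2 * X), G n * ∏ i, ((mu (n + h i) : ℝ) : ℂ)‖
          ≤ (H : ℝ) ^ k * ((C * sav X H δ) ^ k * (∑ n ∈ Ioc X (2 * X), ‖G n‖) + X / Real.log X ^ B) :=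
  cd1_h cd0 k B δ ε hδ hδ1 hε hε1

theorem cd2 (B : ℕ) (δ ε : ℝ) (hδ : 0 < δ) (hδ1 : δ < 1) (hε : 0 < ε) (hε1 : ε < 1) : ∃ (C : ℝ) (X0 : ℕ), 1 ≤ C ∧
    ∀ X : ℕ, X0 ≤ X → ∀ H q0 d : ℕ, 2 ≤ H → ((q0 + H : ℕ) : ℝ) ≤ (X : ℝ) ^ (1 - ε) → 1 ≤ d → (d : ℝ) ≤ Real.log X ^ B →
      ∑ q ∈ Ioc q0 (q0 + H), |∑ n ∈ Ioc X (2 * X), mu n * mu (n + q * d)|
        ≤ C * H * X * sav X H δ ^ 2 :=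
  cd2_h cd0 B δ ε hδ hδ1 hε hε1

theorem cd3 (δ ε η : ℝ) (hδ : 0 < δ) (hδ1 : δ < 1) (hε : 0 < ε) (hε1 : ε < 1) (hη : 0 < η) : ∃ N0 : ℕ, ∀ X : ℕ, N0 ≤ X →
    ∀ H q0 : ℕ, 2 ≤ H → ((q0 + H : ℕ) : ℝ) ≤ (X : ℝ) ^ (1 - ε) →
      ∃ E : Finset ℕ, (E.card : ℝ) ≤ η * H ∧ ∀ q ∈ Ioc q0 (q0 + H), q ∉ E →
        ∀ (K : ℕ) (c : ℕ → ℂ), (N0 : ℝ) * K ≤ (Real.log H / Real.log (Real.log X)) ^ 2 → (K : ℝ) ≤ Real.log X ^ (2 - δ) →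
          |(1 / (X : ℝ)) * ∑ n ∈ Ioc X (2 * X), ‖∑ j ∈ range K, c j * ((mu (n + q * j) : ℝ) : ℂ)‖ ^ 2
              - 6 / Real.pi ^ 2 * ∑ j ∈ range K, ‖c j‖ ^ 2|
            ≤ η * ∑ j ∈ range K, ‖c j‖ ^ 2 :=
  cd3_h cd2 δ ε η hδ hδ1 hε hε1 hη

theorem cdm (δ ε : ℝ) (hδ : 0 < δ) (hδ1 : δ < 1) (hε : 0 < ε) (hε1 : ε < 1) : ∃ N0 : ℕ, ∀ X : ℕ, N0 ≤ X →
    ∀ H K : ℕ, 2 ≤ H → (H : ℝ) ≤ (X : ℝ) ^ (1 - ε) →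
      (N0 : ℝ) * K ≤ (Real.log H / Real.log (Real.log X)) ^ 2 → (K : ℝ) ≤ Real.log X ^ (2 - δ) →
      ∑ h ∈ Fintype.piFinset (fun _ : Fin K => Icc 1 H), ∑ n ∈ Ioc X (2 * X), (∑ i, mu (n + h i)) ^ 2
        ≤ 2 * K * (H : ℝ) ^ K * X :=
  cdm_h cd1 δ ε hδ hδ1 hε hε1

open Classical in
theorem cd4 (δ ε η : ℝ) (hδ : 0 < δ) (hδ1 : δ < 1) (hε : 0 < ε) (hε1 : ε < 1) (hη : 0 < η) : ∃ N0 : ℕ, ∀ X : ℕ, N0 ≤ X →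
    ∀ H K : ℕ, 2 ≤ H → (H : ℝ) ≤ (X : ℝ) ^ (1 - ε) → 1 ≤ K →
      (N0 : ℝ) * K ≤ (Real.log H / Real.log (Real.log X)) ^ 2 → (K : ℝ) ≤ Real.log X ^ (2 - δ) →
      ((((Fintype.piFinset (fun _ : Fin K => Icc 1 H)).filter (fun h => ∃ c : Fin K → ℂ, (∀ i, ‖c i‖ ≤ 1) ∧
          η * K < |(1 / (X : ℝ)) * ∑ n ∈ Ioc X (2 * X), ‖∑ i, c i * ((mu (n + h i) : ℝ) : ℂ)‖ ^ 2
              - 6 / Real.pi ^ 2 * ∑ i, ‖c i‖ ^ 2|)).card : ℕ) : ℝ)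
        ≤ η * (H : ℝ) ^ K :=
  cd4_h cd1 δ ε η hδ hδ1 hε hε1 hη

open Classical in
theorem cd5 (δ ε η : ℝ) (hδ : 0 < δ) (hδ1 : δ < 1) (hε : 0 < ε) (hε1 : ε < 1) (hη : 0 < η) : ∃ N0 : ℕ, ∀ X : ℕ, N0 ≤ X →
    ∀ H K : ℕ, 2 ≤ H → (H : ℝ) ≤ (X : ℝ) ^ (1 - ε) → N0 ≤ K →
      (N0 : ℝ) * K ≤ (Real.log H / Real.log (Real.log X)) ^ 2 → (K : ℝ) ≤ Real.log X ^ (2 - δ) →
      ((((Fintype.piFinset (fun _ : Fin K => Icc 1 H)).filter (fun h => ∃ u : ℝ,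
          η < |(((Ioc X (2 * X)).filter (fun n => ∑ i, mu (n + h i) ≤ u * Real.sqrt (6 * K / Real.pi ^ 2))).card : ℝ) / X
              - (gaussianReal 0 1).real (Set.Iic u)|)).card : ℕ) : ℝ)
        ≤ η * (H : ℝ) ^ K :=
  cd5_h cd1 cdm δ ε η hδ hδ1 hε hε1 hη

end Pool.Agent.H43.CH
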