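import Pool.Agent.H43.PS.M12
import Pool.Agent.H43.PS.M27

/-!
# CH LvG: large values for `gP P1 P` with additive characters

Proof.  `s < s' < 1` is not needed: `P ≤ exp(L^s)`.  `η = min` of the one of `lvt`, of `nrm_hm` and `1/50`.  `y < x^{19/20}`: `nrm_triv` (`|GT| ≤ y`): `nrm ≤ x^{19/20} x^{1/100} ≤ x/L^K`.
`y ≥ x^{19/20}`: `SwG_id`/`SwG_sum` (`H43/LM/SwG.lean`, sign of `ee` changed, e.g. by complex conjugation): `GT = - ∑_{l ≤ y} hI l ee(t log l) ST c (l b) (y/l) t`.  `D0 = ⌊x^{1/10}⌋₊`.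
`l ≤ D0`: `y/l ≥ x^{5/6}`, `lvt` (`K + 2`): `nrm ≤ ∑_{l ≤ D0} (y/l)/L^{K+2} ≤ y (1 + L)/L^{K+2}`.
`l > D0`: this part is `∑_{n ≤ y} a_n ee(n b/c) ee(t log n)`, `a_n = - ∑_{l ∣ n, l > D0} hI l mu(n/l)`; `nrm_hm` (coefficients `a_n ee(n b/c)`): `nrm^2 ≤ y L^2 ∑_{n ≤ y} a_n^2`,
`a_n^2 ≤ τ(n) ∑_{l ∣ n, l > D0} hI l` (Cauchy-Schwarz), `τ(l m) ≤ τ(l) τ(m)`, `∑_{m ≤ M} τ(m) ≤ M (1 + log M)`: `∑ a_n^2 ≤ ∑_{l > D0} hI l τ(l) (y/l)(1 + L) ≤ y (1 + L) C L^k exp(-(log D0)/(2 max (L^s, log 100)))` (`rankin_tau`, `Q = max P 100`)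
`≤ y/L^{2K+6}` for large `x` (`log D0 ≥ L/11`, `L^{1-s}` beats `log L`).
-/

set_option autoImplicit false

namespace Pool.Agent.H43.CH

open Finset MeasureTheory
open Pool.Agent.H91.PK (ee)
open Pool.Agent.H53.MIX (VKw)
open Pool.Agent.H76.MU (nrm BS nrm_nonneg nrm_add nrm_sum nrm_mul nrm_triv nrm_hm cont_poly log_pow_le log_ge)
open Pool.Agent.H43.LM (mu Fr gP hI mu_abs_le gP_abs_le SwG_id SwG_hI_nonneg SwG_hI_le)

/-- exchange of the sums -/
private theorem LvG_swap {R : Type*} [AddCommMonoid R] (F : ℕ → ℕ → R) (y : ℕ) :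
    ∑ n ∈ Icc 1 y, ∑ l ∈ n.divisors, F l (n / l) = ∑ l ∈ Icc 1 y, ∑ m ∈ Icc 1 (y / l), F l m := by
  rw [Finset.sum_sigma', Finset.sum_sigma']
  refine Finset.sum_bij' (fun x _ => ⟨x.2, x.1 / x.2⟩) (fun x _ => ⟨x.1 * x.2, x.1⟩) ?_ ?_ ?_ ?_ ?_
  · rintro ⟨n, l⟩ h
    simp only [Finset.mem_sigma, Finset.mem_Icc, Nat.mem_divisors] at h ⊢
    obtain ⟨⟨h1, h2⟩, h3, h4⟩ := h
    have hl : 0 < l := Nat.pos_of_dvd_of_pos h3 (by omega)
    refine ⟨⟨hl, (Nat.le_of_dvd (by omega) h3).trans h2⟩, ?_, Nat.div_le_div_right h2⟩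
    exact Nat.div_pos (Nat.le_of_dvd (by omega) h3) hl
  · rintro ⟨l, m⟩ h
    simp only [Finset.mem_sigma, Finset.mem_Icc, Nat.mem_divisors] at h ⊢
    obtain ⟨⟨h1, h2⟩, h3, h4⟩ := h
    have h5 : l * m ≤ y := by
      rw [mul_comm]
      exact (Nat.le_div_iff_mul_le (by omega)).mp h4
    refine ⟨⟨Nat.mul_pos (by omega) (by omega), h5⟩, dvd_mul_right l m, ?_⟩
    exact Nat.ne_of_gt (Nat.mul_pos (by omega) (by omega))
  · rintro ⟨n, l⟩ h
    simp only [Finset.mem_sigma, Finset.mem_Icc, Nat.mem_divisors] at h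
    simp only [Sigma.mk.injEq, heq_eq_eq, and_true]
    exact Nat.mul_div_cancel' h.2.1
  · rintro ⟨l, m⟩ h
    simp only [Finset.mem_sigma, Finset.mem_Icc] at h
    simp only [Sigma.mk.injEq, heq_eq_eq, true_and]
    exact Nat.mul_div_cancel_left m (by omega)
  · rintro ⟨n, l⟩ h
    rfl

private theorem LvG_harm (D : ℕ) : ∑ l ∈ Icc 1 D, (1 : ℝ) / l ≤ 1 + Real.log D := by
  have := harmonic_le_one_add_log D
  rw [harmonic_eq_sum_Icc] at this
  push_cast at this
  simpa [one_div] using this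

private theorem LvG_tau (M : ℕ) :
    ∑ m ∈ Icc 1 M, (m.divisors.card : ℝ) ≤ M * (1 + Real.log M) := by
  have h1 : ∑ m ∈ Icc 1 M, (m.divisors.card : ℝ) = ∑ l ∈ Icc 1 M, ((M / l : ℕ) : ℝ) := by
    have h2 := LvG_swap (fun _ _ => (1 : ℝ)) M
    simpa using h2
  rw [h1]
  have h3 : ∑ l ∈ Icc 1 M, ((M / l : ℕ) : ℝ) ≤ ∑ l ∈ Icc 1 M, (M : ℝ) * (1 / l) := by
    refine Finset.sum_le_sum fun l _ => ?_
    rw [mul_one_div]
    exact Nat.cast_div_le
  refine h3.trans ?_
  rw [← Finset.mul_sum]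
  exact mul_le_mul_of_nonneg_left (LvG_harm M) (Nat.cast_nonneg M)

private theorem LvG_card_mul (l m : ℕ) :
    ((l * m).divisors.card : ℝ) ≤ (l.divisors.card : ℝ) * (m.divisors.card : ℝ) := by
  rw [Nat.divisors_mul]
  exact_mod_cast Finset.card_mul_le

private theorem LvG_cont_ee : Continuous ee := by
  unfold ee
  fun_prop

private theorem LvG_contST (c b y : ℕ) : Continuous (ST c b y) := by
  unfold ST
  exact cont_poly _ (fun n => ((mu n : ℝ) : ℂ) * ee ((n : ℝ) * ((b : ℝ) / c)))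

private theorem LvG_contGT (P1 P c b y : ℕ) : Continuous (GT P1 P c b y) := by
  unfold GT
  exact cont_poly _ (fun n => ((gP P1 P n : ℝ) : ℂ) * ee ((n : ℝ) * ((b : ℝ) / c)))

/-- the coefficients -/
private noncomputable def LvG_a (G : ℕ → ℝ) (n : ℕ) : ℝ := - ∑ l ∈ n.divisors, G l * mu (n / l)

private theorem LvG_sum (G : ℕ → ℝ) (c b y : ℕ) (t : ℝ) :
    ∑ n ∈ Icc 1 y, ((LvG_a G n : ℝ) : ℂ) * ee ((n : ℝ) * ((b : ℝ) / c)) * ee (t * Real.log n)
    = ∑ l ∈ Icc 1 y, (-(G l : ℂ) * ee (t * Real.log l)) * ST c (l * b) (y / l) t := by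
  have h1 : ∀ n ∈ Icc 1 y, ((LvG_a G n : ℝ) : ℂ) * ee ((n : ℝ) * ((b : ℝ) / c)) * ee (t * Real.log n)
      = ∑ l ∈ n.divisors, (-(G l : ℂ)) * (mu (n / l) : ℂ) * ee (((l : ℝ) * ((n / l : ℕ) : ℝ)) * ((b : ℝ) / c))
          * ee (t * Real.log ((l : ℝ) * ((n / l : ℕ) : ℝ))) := by
    intro n hn
    unfold LvG_a
    push_cast
    rw [← Finset.sum_neg_distrib, Finset.sum_mul, Finset.sum_mul]
    refine Finset.sum_congr rfl fun l hl => ?_
    have hln : (l : ℝ) * ((n / l : ℕ) : ℝ) = (n : ℝ) := by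
      rw [← Nat.cast_mul, Nat.mul_div_cancel' (Nat.dvd_of_mem_divisors hl)]
    rw [hln]
    ring
  rw [Finset.sum_congr rfl h1]
  rw [LvG_swap (fun l m => (-(G l : ℂ)) * (mu m : ℂ) * ee (((l : ℝ) * (m : ℝ)) * ((b : ℝ) / c))
          * ee (t * Real.log ((l : ℝ) * (m : ℝ)))) y]
  refine Finset.sum_congr rfl fun l hl => ?_
  unfold ST
  rw [Finset.mul_sum]
  refine Finset.sum_congr rfl fun m hm => ?_
  rw [Finset.mem_Icc] at hl hm
  have hl0 : (l : ℝ) ≠ 0 := by
    have : (0 : ℝ) < l := by exact_mod_cast hl.1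
    exact this.ne'
  have hm0 : (m : ℝ) ≠ 0 := by
    have : (0 : ℝ) < m := by exact_mod_cast hm.1
    exact this.ne'
  rw [Real.log_mul hl0 hm0]
  have e1 : t * (Real.log l + Real.log m) = t * Real.log l + t * Real.log m := by ring
  rw [e1, Pool.Agent.H91.PK.LSa_ee_add]
  have e2 : ((l : ℝ) * (m : ℝ)) * ((b : ℝ) / c) = (m : ℝ) * (((l * b : ℕ) : ℝ) / c) := by
    push_cast; ring
  rw [e2]
  ring

/-- the square of the coefficients of the second part -/
private theorem LvG_sq (G : ℕ → ℝ) (h0 : ∀ l, 0 ≤ G l) (h1 : ∀ l, G l ≤ 1) (n : ℕ) :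
    LvG_a G n ^ 2 ≤ ∑ l ∈ n.divisors, G l * ((l * (n / l)).divisors.card : ℝ) := by
  have e : ∑ l ∈ n.divisors, G l * ((l * (n / l)).divisors.card : ℝ)
      = (∑ l ∈ n.divisors, G l) * (n.divisors.card : ℝ) := by
    rw [Finset.sum_mul]
    refine Finset.sum_congr rfl fun l hl => ?_
    rw [Nat.mul_div_cancel' (Nat.dvd_of_mem_divisors hl)]
  rw [e]
  have h2 : |LvG_a G n| ≤ ∑ l ∈ n.divisors, G l := by
    unfold LvG_a
    rw [abs_neg]
    refine (Finset.abs_sum_le_sum_abs _ _).trans (Finset.sum_le_sum fun l _ => ?_)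
    rw [abs_mul, abs_of_nonneg (h0 l)]
    exact mul_le_of_le_one_right (h0 l) (mu_abs_le _)
  have h3 : ∑ l ∈ n.divisors, G l ≤ (n.divisors.card : ℝ) := by
    refine (Finset.sum_le_sum fun l _ => h1 l).trans (le_of_eq ?_)
    simp
  have h4 : 0 ≤ ∑ l ∈ n.divisors, G l := Finset.sum_nonneg fun l _ => h0 l
  rw [← sq_abs, sq]
  exact mul_le_mul h2 (h2.trans h3) (abs_nonneg _) h4

/-- the sum of the squares -/
private theorem LvG_sq_sum (G : ℕ → ℝ) (h0 : ∀ l, 0 ≤ G l) (h1 : ∀ l, G l ≤ 1) (y : ℕ) :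
    ∑ n ∈ Icc 1 y, LvG_a G n ^ 2
      ≤ y * (1 + Real.log y) * ∑ l ∈ Icc 1 y, G l * ((l.divisors.card : ℝ) / l) := by
  refine (Finset.sum_le_sum fun n _ => LvG_sq G h0 h1 n).trans ?_
  rw [LvG_swap (fun l m => G l * ((l * m).divisors.card : ℝ)) y, Finset.mul_sum]
  refine Finset.sum_le_sum fun l hl => ?_
  rw [Finset.mem_Icc] at hl
  have hl0 : (0 : ℝ) < l := by exact_mod_cast hl.1
  have hy0 : (0 : ℝ) < y := by exact_mod_cast (lt_of_lt_of_le hl.1 hl.2)
  rw [← Finset.mul_sum]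
  have h2 : ∑ m ∈ Icc 1 (y / l), ((l * m).divisors.card : ℝ)
      ≤ (l.divisors.card : ℝ) * ((y / l : ℕ) * (1 + Real.log (y / l : ℕ))) := by
    refine (Finset.sum_le_sum fun m _ => LvG_card_mul l m).trans ?_
    rw [← Finset.mul_sum]
    exact mul_le_mul_of_nonneg_left (LvG_tau _) (Nat.cast_nonneg _)
  have h3 : ((y / l : ℕ) : ℝ) ≤ y / l := Nat.cast_div_le
  have h5 : Real.log ((y / l : ℕ) : ℝ) ≤ Real.log y := by
    rcases Nat.eq_zero_or_pos (y / l) with h | h
    · rw [h]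
      simp only [Nat.cast_zero, Real.log_zero]
      exact Real.log_natCast_nonneg y
    · exact Real.log_le_log (by exact_mod_cast h) (by exact_mod_cast Nat.div_le_self y l)
  have h6 : 0 ≤ Real.log ((y / l : ℕ) : ℝ) := Real.log_natCast_nonneg _
  have h7 : ((y / l : ℕ) : ℝ) * (1 + Real.log (y / l : ℕ)) ≤ (y / l) * (1 + Real.log y) :=
    mul_le_mul h3 (by linarith only [h5]) (by linarith only [h6]) (by positivity)
  calc G l * ∑ m ∈ Icc 1 (y / l), ((l * m).divisors.card : ℝ)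
      ≤ G l * ((l.divisors.card : ℝ) * ((y / l) * (1 + Real.log y))) :=
        mul_le_mul_of_nonneg_left (h2.trans (mul_le_mul_of_nonneg_left h7 (Nat.cast_nonneg _))) (h0 l)
    _ = y * (1 + Real.log y) * (G l * ((l.divisors.card : ℝ) / l)) := by ring

/-- the facts for large `x` -/
private theorem LvG_large (s : ℝ) (hs0 : 0 < s) (hs : s < 1) (K k : ℕ) (C : ℝ) : ∃ x0 : ℕ, ∀ x : ℕ, x0 ≤ x →
    3 ≤ Real.log x ∧ Real.log x ^ K ≤ (x : ℝ) ^ (1 / 25 : ℝ) ∧ 2 ≤ (x : ℝ) ^ (1 / 110 : ℝ) ∧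
      Real.log 100 ≤ Real.log x ^ s ∧
      8 * C * Real.log x ^ (k + 2 * K + 3) * Real.exp (-(Real.log x ^ (1 - s) / 22)) ≤ 1 := by
  obtain ⟨x1, h1⟩ := log_ge 3
  obtain ⟨x2, h2⟩ := log_pow_le (1 / 25) 1 (by norm_num) (by norm_num) K
  obtain ⟨x3, h3⟩ := log_pow_le (1 / 110) 2 (by norm_num) (by norm_num) 0
  have hs1 : 0 < 1 - s := by linarith only [hs]
  have e6 : ∀ᶠ L : ℝ in Filter.atTop, Real.log 100 ≤ L ^ s := (tendsto_rpow_atTop hs0).eventually_ge_atTop _
  have e1 : ∀ᶠ L : ℝ in Filter.atTop, (1 : ℝ) ≤ L := Filter.eventually_ge_atTop _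
  have e8 : ∀ᶠ L : ℝ in Filter.atTop, 8 * C * L ^ (k + 2 * K + 3) * Real.exp (-(L ^ (1 - s) / 22)) ≤ 1 := by
    have h1 := (tendsto_rpow_mul_exp_neg_mul_atTop_nhds_zero (((k + 2 * K + 3 : ℕ) : ℝ) / (1 - s)) (1 / 22) (by norm_num)).comp
      (tendsto_rpow_atTop hs1)
    have h2 := h1.const_mul (8 * C)
    rw [mul_zero] at h2
    filter_upwards [h2.eventually (ge_mem_nhds (zero_lt_one)), e1] with L hL hL16
    have hL0 : 0 < L := by linarith only [hs0, hs, hL16]
    refine le_trans (le_of_eq ?_) hL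
    simp only [Function.comp]
    rw [← Real.rpow_mul hL0.le, mul_div_cancel₀ _ hs1.ne', Real.rpow_natCast]
    have : -(1 / 22 : ℝ) * L ^ (1 - s) = -(L ^ (1 - s) / 22) := by ring
    rw [this]
    ring
  have e9 := (Real.tendsto_log_atTop.comp (tendsto_natCast_atTop_atTop (R := ℝ))).eventually (e6.and e8)
  obtain ⟨x4, h4⟩ := Filter.eventually_atTop.1 e9
  refine ⟨max (max x1 x2) (max x3 x4), fun x hx => ?_⟩
  have a1 : x1 ≤ x := le_trans (le_trans (le_max_left _ _) (le_max_left _ _)) hx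
  have a2 : x2 ≤ x := le_trans (le_trans (le_max_right _ _) (le_max_left _ _)) hx
  have a3 : x3 ≤ x := le_trans (le_trans (le_max_left _ _) (le_max_right _ _)) hx
  have a4 : x4 ≤ x := le_trans (le_trans (le_max_right _ _) (le_max_right _ _)) hx
  refine ⟨h1 x a1, ?_, ?_, (h4 x a4).1, (h4 x a4).2⟩
  · have := h2 x a2
    rwa [one_mul] at this
  · have := h3 x a3
    rwa [pow_zero, mul_one] at this

private theorem LvG_BS {η η' T : ℝ} {B : Set ℝ} (h : η ≤ η') (hT : 1 ≤ T) (hB : BS η T B) : BS η' T B :=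
  ⟨hB.meas, hB.mem, hB.vol.trans (Real.rpow_le_rpow_of_exponent_le hT h)⟩

private theorem LvG_GT_le (P1 P c b y : ℕ) (t : ℝ) : ‖GT P1 P c b y t‖ ≤ y := by
  unfold GT
  refine (norm_sum_le _ _).trans ?_
  have : ∀ n ∈ Icc 1 y, ‖((gP P1 P n : ℝ) : ℂ) * ee ((n : ℝ) * ((b : ℝ) / c)) * ee (t * Real.log n)‖ ≤ 1 := by
    intro n _
    rw [norm_mul, norm_mul, Pool.Agent.H91.PK.LSa_norm_ee, Pool.Agent.H91.PK.LSa_norm_ee, mul_one, mul_one,
      Complex.norm_real]
    exact gP_abs_le P1 P n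
  refine (Finset.sum_le_sum this).trans ?_
  simp

open Classical in
theorem lvg_h (h_lvt : lvt_P) (hV : VKw (19 / 20)) (s : ℝ) (hs0 : 0 < s) (hs : s < 1) : ∃ η : ℝ, 0 < η ∧ η ≤ 1 / 10 ∧ ∀ K B : ℕ,
    ∃ K' x0 : ℕ, ∀ x : ℕ, x0 ≤ x → ∀ (P1 P c b y : ℕ) (T : ℝ) (Bs : Set ℝ), (P : ℝ) ≤ Real.exp (Real.log x ^ s) →
      1 ≤ c → (c : ℝ) ≤ Real.log x ^ B → y ≤ x →
      Real.log x ^ K' ≤ T → T ≤ x → BS η T Bs → nrm Bs (GT P1 P c b y) ≤ x / Real.log x ^ K := by
  obtain ⟨η1, h10, h11, hlvt⟩ := h_lvt hV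
  obtain ⟨η2, h20, h21, x2, hhm⟩ := nrm_hm
  obtain ⟨C, k, hC, hrank⟩ := rankin_tau
  refine ⟨min (min η1 η2) (1 / 50), lt_min (lt_min h10 h20) (by norm_num),
    (min_le_right _ _).trans (by norm_num), fun K B => ?_⟩
  obtain ⟨K', x1, hlvt⟩ := hlvt (K + 2) B
  obtain ⟨x3, hlarge⟩ := LvG_large s hs0 hs K k C
  refine ⟨K', max (max x1 x2) (max x3 1), fun x hx P1 P c b y T Bs hP hc1 hc hyx hT hTx hBs => ?_⟩
  have hx1 : x1 ≤ x := le_trans (le_trans (le_max_left _ _) (le_max_left _ _)) hx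
  have hx2 : x2 ≤ x := le_trans (le_trans (le_max_right _ _) (le_max_left _ _)) hx
  have hx3 : x3 ≤ x := le_trans (le_trans (le_max_left _ _) (le_max_right _ _)) hx
  have hx4 : 1 ≤ x := le_trans (le_trans (le_max_right _ _) (le_max_right _ _)) hx
  obtain ⟨a1, a2, a3, a4, a5⟩ := hlarge x hx3
  obtain ⟨η, hη⟩ : ∃ η, η = min (min η1 η2) (1 / 50) := ⟨_, rfl⟩
  rw [← hη] at hBs
  have hη0 : 0 ≤ η := by
    rw [hη]
    exact (lt_min (lt_min h10 h20) (by norm_num)).le
  have hη1 : η ≤ η1 := by rw [hη]; exact (min_le_left _ _).trans (min_le_left _ _)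
  have hη2 : η ≤ η2 := by rw [hη]; exact (min_le_left _ _).trans (min_le_right _ _)
  have hη3 : η ≤ 1 / 50 := by rw [hη]; exact min_le_right _ _
  obtain ⟨L, hL⟩ : ∃ L, L = Real.log x := ⟨_, rfl⟩
  rw [← hL] at a1 a2 a4 a5 hP hc hT ⊢
  have hxp : (0 : ℝ) < x := by exact_mod_cast hx4
  have hx1' : (1 : ℝ) ≤ x := by exact_mod_cast hx4
  have hLp : 0 < L := by linarith only [h10, h11, a1]
  have hT1 : 1 ≤ T := (one_le_pow₀ (by linarith only [h10, h11, a1])).trans hT
  have hyx' : (y : ℝ) ≤ x := by exact_mod_cast hyx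
  rcases lt_or_ge (y : ℝ) ((x : ℝ) ^ (19 / 20 : ℝ)) with hy | hy
  · -- small y
    have h1 := nrm_triv η T x y Bs hBs hη0 hT1 hTx (GT P1 P c b y) (LvG_contGT P1 P c b y)
      (fun t _ => LvG_GT_le P1 P c b y t) (Nat.cast_nonneg y)
    refine h1.trans ?_
    have h2 : (x : ℝ) ^ (η / 2) ≤ (x : ℝ) ^ (1 / 100 : ℝ) :=
      Real.rpow_le_rpow_of_exponent_le hx1' (by linarith only [hη3])
    rw [le_div_iff₀ (by positivity)]
    calc (y : ℝ) * (x : ℝ) ^ (η / 2) * L ^ K
        ≤ (x : ℝ) ^ (19 / 20 : ℝ) * (x : ℝ) ^ (1 / 100 : ℝ) * (x : ℝ) ^ (1 / 25 : ℝ) := by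
          refine mul_le_mul (mul_le_mul hy.le h2 (by positivity) (by positivity)) a2 (by positivity)
            (by positivity)
      _ = (x : ℝ) ^ (1 : ℝ) := by
          rw [← Real.rpow_add hxp, ← Real.rpow_add hxp]
          norm_num
      _ = x := Real.rpow_one _
  · -- large y
    obtain ⟨D, hD⟩ : ∃ D, D = ⌊(x : ℝ) ^ (1 / 10 : ℝ)⌋₊ := ⟨_, rfl⟩
    obtain ⟨Q, hQ⟩ : ∃ Q, Q = max P 100 := ⟨_, rfl⟩
    have hx10 : (1 : ℝ) ≤ (x : ℝ) ^ (1 / 10 : ℝ) := Real.one_le_rpow hx1' (by norm_num)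
    have hD1 : 1 ≤ D := by
      rw [hD]
      exact Nat.le_floor (by exact_mod_cast hx10)
    have hDup : (D : ℝ) ≤ (x : ℝ) ^ (1 / 10 : ℝ) := by
      rw [hD]
      exact Nat.floor_le (by positivity)
    have hDpos : (0 : ℝ) < D := by exact_mod_cast hD1
    have hDlow : (x : ℝ) ^ (1 / 11 : ℝ) ≤ D := by
      have h1 : (x : ℝ) ^ (1 / 10 : ℝ) < D + 1 := by
        rw [hD]
        exact Nat.lt_floor_add_one _
      have h2 : (x : ℝ) ^ (1 / 10 : ℝ) = (x : ℝ) ^ (1 / 11 : ℝ) * (x : ℝ) ^ (1 / 110 : ℝ) := by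
        rw [← Real.rpow_add hxp]
        norm_num
      have h3 : (1 : ℝ) ≤ (x : ℝ) ^ (1 / 11 : ℝ) := Real.one_le_rpow hx1' (by norm_num)
      nlinarith only [a3, h1, h2, h3]
    have hlogD : L / 11 ≤ Real.log D := by
      have h1 := Real.log_le_log (by positivity) hDlow
      rw [Real.log_rpow hxp, ← hL] at h1
      linarith only [h1]
    -- the two parts
    set G1 : ℕ → ℝ := fun l => if l ≤ D then hI P1 P l else 0 with hG1
    set G2 : ℕ → ℝ := fun l => if l ≤ D then 0 else hI P1 P l with hG2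
    have hsplit : GT P1 P c b y = fun t =>
        (∑ l ∈ Icc 1 y, (-(G1 l : ℂ) * ee (t * Real.log l)) * ST c (l * b) (y / l) t)
        + ∑ n ∈ Icc 1 y, (((LvG_a G2 n : ℝ) : ℂ) * ee ((n : ℝ) * ((b : ℝ) / c))) * ee (t * Real.log n) := by
      funext t
      rw [← LvG_sum, ← Finset.sum_add_distrib]
      unfold GT
      refine Finset.sum_congr rfl fun n _ => ?_
      have h1 : gP P1 P n = LvG_a G1 n + LvG_a G2 n := by
        rw [SwG_id]
        unfold LvG_a
        rw [← neg_add, ← Finset.sum_add_distrib]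
        congr 1
        refine Finset.sum_congr rfl fun l _ => ?_
        simp only [hG1, hG2]
        split_ifs <;> ring
      rw [h1]
      push_cast
      ring
    have hG10 : ∀ l, 0 ≤ G1 l := by
      intro l
      simp only [hG1]
      split_ifs
      · exact SwG_hI_nonneg _ _ _
      · exact le_rfl
    have hG20 : ∀ l, 0 ≤ G2 l := by
      intro l
      simp only [hG2]
      split_ifs
      · exact le_rfl
      · exact SwG_hI_nonneg _ _ _
    have hG21 : ∀ l, G2 l ≤ 1 := by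
      intro l
      simp only [hG2]
      split_ifs
      · exact zero_le_one
      · exact SwG_hI_le _ _ _
    have hcA : ∀ l ∈ Icc 1 y, Continuous (fun t => (-(G1 l : ℂ) * ee (t * Real.log l)) * ST c (l * b) (y / l) t) := by
      intro l _
      refine Continuous.mul (continuous_const.mul ?_) (LvG_contST _ _ _)
      exact LvG_cont_ee.comp (continuous_id.mul continuous_const)
    have hypos : (0 : ℝ) < y := lt_of_lt_of_le (by positivity) hy
    -- part 1
    have hA : nrm Bs (fun t => ∑ l ∈ Icc 1 y, (-(G1 l : ℂ) * ee (t * Real.log l)) * ST c (l * b) (y / l) t)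
        ≤ x / L ^ K / 2 := by
      refine (nrm_sum η T Bs hBs (Icc 1 y) _ hcA).trans ?_
      have h1 : ∀ l ∈ Icc 1 y, nrm Bs (fun t => (-(G1 l : ℂ) * ee (t * Real.log l)) * ST c (l * b) (y / l) t)
          ≤ if l ≤ D then (y : ℝ) / L ^ (K + 2) * (1 / l) else 0 := by
        intro l hl
        rw [Finset.mem_Icc] at hl
        have hl0 : (0 : ℝ) < l := by exact_mod_cast hl.1
        have h2 := nrm_mul η T Bs hBs (ST c (l * b) (y / l)) (fun t => -(G1 l : ℂ) * ee (t * Real.log l)) (G1 l)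
          (LvG_contST _ _ _) (continuous_const.mul (LvG_cont_ee.comp (continuous_id.mul continuous_const)))
          (fun t _ => by
            rw [norm_mul, norm_neg, Pool.Agent.H91.PK.LSa_norm_ee, mul_one, Complex.norm_real,
              Real.norm_eq_abs, abs_of_nonneg (hG10 l)]) (hG10 l)
        refine h2.trans ?_
        by_cases hlD : l ≤ D
        · rw [if_pos hlD]
          have hlD' : (l : ℝ) ≤ (x : ℝ) ^ (1 / 10 : ℝ) := le_trans (by exact_mod_cast hlD) hDup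
          have hlow : (x : ℝ) ^ (5 / 6 : ℝ) ≤ ((y / l : ℕ) : ℝ) := by
            have h3 : (y : ℝ) / l < ((y / l : ℕ) : ℝ) + 1 := by
              rw [div_lt_iff₀ hl0]
              have := Nat.lt_div_mul_add (a := y) (b := l) hl.1
              have h4 : (y : ℝ) < (((y / l) * l + l : ℕ) : ℝ) := by exact_mod_cast this
              push_cast at h4 ⊢
              linarith only [h4]
            have h5 : (x : ℝ) ^ (17 / 20 : ℝ) ≤ (y : ℝ) / l := by
              rw [le_div_iff₀ hl0]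
              calc (x : ℝ) ^ (17 / 20 : ℝ) * l ≤ (x : ℝ) ^ (17 / 20 : ℝ) * (x : ℝ) ^ (1 / 10 : ℝ) :=
                    mul_le_mul_of_nonneg_left hlD' (by positivity)
                _ = (x : ℝ) ^ (19 / 20 : ℝ) := by
                    rw [← Real.rpow_add hxp]
                    norm_num
                _ ≤ y := hy
            have h6 : (x : ℝ) ^ (17 / 20 : ℝ) = (x : ℝ) ^ (5 / 6 : ℝ) * (x : ℝ) ^ (1 / 60 : ℝ) := by
              rw [← Real.rpow_add hxp]
              norm_num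
            have h7 : (2 : ℝ) ≤ (x : ℝ) ^ (1 / 60 : ℝ) :=
              a3.trans (Real.rpow_le_rpow_of_exponent_le hx1' (by norm_num))
            have h8 : (1 : ℝ) ≤ (x : ℝ) ^ (5 / 6 : ℝ) := Real.one_le_rpow hx1' (by norm_num)
            nlinarith only [h5, h6, h7, h8, h10, h3, h11]
          have h3 := hlvt x hx1 c (l * b) (y / l) T Bs hc1 (by rw [← hL]; exact hc) hlow
            ((Nat.div_le_self y l).trans hyx) (by rw [← hL]; exact hT) hTx (LvG_BS hη1 hT1 hBs)
          rw [← hL] at h3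
          have h4 : G1 l ≤ 1 := by
            simp only [hG1]
            rw [if_pos hlD]
            exact SwG_hI_le _ _ _
          calc G1 l * nrm Bs (ST c (l * b) (y / l)) ≤ 1 * nrm Bs (ST c (l * b) (y / l)) :=
                mul_le_mul_of_nonneg_right h4 (nrm_nonneg _ _)
            _ ≤ ((y / l : ℕ) : ℝ) / L ^ (K + 2) := by rw [one_mul]; exact h3
            _ ≤ ((y : ℝ) / l) / L ^ (K + 2) :=
                div_le_div_of_nonneg_right Nat.cast_div_le (by positivity)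
            _ = (y : ℝ) / L ^ (K + 2) * (1 / l) := by ring
        · rw [if_neg hlD]
          have : G1 l = 0 := by
            simp only [hG1]
            rw [if_neg hlD]
          rw [this, zero_mul]
      refine (Finset.sum_le_sum h1).trans ?_
      rw [← Finset.sum_filter]
      have h2 : ∑ l ∈ (Icc 1 y).filter (fun l => l ≤ D), (y : ℝ) / L ^ (K + 2) * (1 / l)
          ≤ ∑ l ∈ Icc 1 D, (y : ℝ) / L ^ (K + 2) * (1 / l) := by
        refine Finset.sum_le_sum_of_subset_of_nonneg ?_ (fun l _ _ => by positivity)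
        intro l hl
        rw [Finset.mem_filter, Finset.mem_Icc] at hl
        rw [Finset.mem_Icc]
        exact ⟨hl.1.1, hl.2⟩
      refine h2.trans ?_
      rw [← Finset.mul_sum]
      have h3 : Real.log D ≤ L := by
        have h4 : (D : ℝ) ≤ x := hDup.trans (by
          conv_rhs => rw [← Real.rpow_one (x : ℝ)]
          exact Real.rpow_le_rpow_of_exponent_le hx1' (by norm_num))
        rw [hL]
        exact Real.log_le_log hDpos h4
      have h5 : (1 : ℝ) + L ≤ L ^ 2 / 2 := by nlinarith only [a1]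
      calc (y : ℝ) / L ^ (K + 2) * ∑ l ∈ Icc 1 D, (1 : ℝ) / l
          ≤ (x : ℝ) / L ^ (K + 2) * (L ^ 2 / 2) := by
            refine mul_le_mul (div_le_div_of_nonneg_right hyx' (by positivity))
              ((LvG_harm D).trans (by linarith only [h3, h5])) (Finset.sum_nonneg fun l _ => by positivity) (by positivity)
        _ = x / L ^ K / 2 := by
            rw [pow_add]
            field_simp
    -- part 2
    have hB2 : nrm Bs (fun t => ∑ n ∈ Icc 1 y, (((LvG_a G2 n : ℝ) : ℂ) * ee ((n : ℝ) * ((b : ℝ) / c)))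
        * ee (t * Real.log n)) ≤ x / L ^ K / 2 := by
      have h1 := hhm x hx2 y (fun n => ((LvG_a G2 n : ℝ) : ℂ) * ee ((n : ℝ) * ((b : ℝ) / c))) T Bs η hη0 hη2
        ((Real.rpow_le_rpow_of_exponent_le hx1' (by norm_num)).trans hy) (by exact_mod_cast hyx) hT1 hTx hBs
      rw [← hL] at h1
      have h2 : ∑ n ∈ Icc 1 y, ‖((LvG_a G2 n : ℝ) : ℂ) * ee ((n : ℝ) * ((b : ℝ) / c))‖ ^ 2
          = ∑ n ∈ Icc 1 y, LvG_a G2 n ^ 2 := by
        refine Finset.sum_congr rfl fun n _ => ?_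
        rw [norm_mul, Pool.Agent.H91.PK.LSa_norm_ee, mul_one, Complex.norm_real, Real.norm_eq_abs, sq_abs]
      rw [h2] at h1
      have h3 := LvG_sq_sum G2 hG20 hG21 y
      have hQ100 : 100 ≤ Q := by rw [hQ]; exact le_max_right _ _
      have hlogQ : Real.log Q ≤ L ^ s := by
        rw [hQ]
        push_cast
        rcases le_total (P : ℝ) 100 with h | h
        · rw [max_eq_right h]; exact a4
        · rw [max_eq_left h, ← Real.log_exp (L ^ s)]
          exact Real.log_le_log (by linarith only [h10, h11, h]) hP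
      have hlogQ1 : 0 < Real.log Q := Real.log_pos (by
        have : (100 : ℝ) ≤ Q := by exact_mod_cast hQ100
        linarith only [h10, h11, this])
      have hLs : 0 < L ^ s := Real.rpow_pos_of_pos hLp s
      have hLsL : L ^ s ≤ L := by
        conv_rhs => rw [← Real.rpow_one L]
        exact Real.rpow_le_rpow_of_exponent_le (by linarith only [h10, h11, a1]) hs.le
      have h4 : ∑ l ∈ Icc 1 y, G2 l * ((l.divisors.card : ℝ) / l)
          ≤ ∑ l ∈ (Ioc D y).filter (fun l : ℕ => ∀ p : ℕ, p.Prime → p ∣ l → p ≤ Q), (l.divisors.card : ℝ) / l := by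
        have h5 : ∑ l ∈ Icc 1 y, G2 l * ((l.divisors.card : ℝ) / l)
            = ∑ l ∈ Ioc D y, G2 l * ((l.divisors.card : ℝ) / l) := by
          symm
          refine Finset.sum_subset ?_ ?_
          · intro l hl
            rw [Finset.mem_Ioc] at hl
            rw [Finset.mem_Icc]
            omega
          · intro l hl hl2
            rw [Finset.mem_Icc] at hl
            rw [Finset.mem_Ioc] at hl2
            have h6 : l ≤ D := by omega
            simp only [hG2]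
            rw [if_pos h6, zero_mul]
        rw [h5, Finset.sum_filter]
        refine Finset.sum_le_sum fun l hl => ?_
        by_cases hc : ∀ p : ℕ, p.Prime → p ∣ l → p ≤ Q
        · rw [if_pos hc]
          exact mul_le_of_le_one_left (by positivity) (hG21 l)
        · rw [if_neg hc]
          have h7 : G2 l = 0 := by
            simp only [hG2]
            split_ifs
            · rfl
            · unfold hI
              rw [if_neg]
              rintro ⟨_, h'⟩
              exact hc (fun p hp hpd => ((h' p hp hpd).2).trans (by rw [hQ]; exact le_max_left _ _))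
          rw [h7, zero_mul]
      have h5 := hrank Q D y hQ100 hD1
      have h6 : Real.exp (-(Real.log D / (2 * Real.log Q))) ≤ Real.exp (-(L ^ (1 - s) / 22)) := by
        rw [Real.exp_le_exp, neg_le_neg_iff, le_div_iff₀ (by linarith only [hlogQ1])]
        have h3 : L ^ s * L ^ (1 - s) = L := by
          rw [← Real.rpow_add hLp]; simp
        have h4 : 0 < L ^ (1 - s) := Real.rpow_pos_of_pos hLp _
        nlinarith only [hlogD, h3, h10, h11, hlogQ, h4]
      have h7 : Real.log Q ^ k ≤ L ^ k := pow_le_pow_left₀ hlogQ1.le (hlogQ.trans hLsL) _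
      have h8 : C * Real.log Q ^ k * Real.exp (-(Real.log D / (2 * Real.log Q)))
          ≤ C * L ^ k * Real.exp (-(L ^ (1 - s) / 22)) :=
        mul_le_mul (mul_le_mul_of_nonneg_left h7 hC.le) h6 (Real.exp_pos _).le (by positivity)
      have hlogy : Real.log y ≤ L := by
        rw [hL]
        exact Real.log_le_log hypos hyx'
      have hlogy0 : 0 ≤ Real.log y := Real.log_natCast_nonneg y
      have h9 : ∑ n ∈ Icc 1 y, LvG_a G2 n ^ 2 ≤ (y : ℝ) * (2 * L) * (C * L ^ k * Real.exp (-(L ^ (1 - s) / 22))) := by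
        refine h3.trans ?_
        refine mul_le_mul (mul_le_mul_of_nonneg_left (by linarith only [h10, h11, a1, hlogy]) hypos.le) (h4.trans (h5.trans h8)) ?_ (by positivity)
        exact Finset.sum_nonneg fun l _ => mul_nonneg (hG20 l) (by positivity)
      have h10 : nrm Bs (fun t => ∑ n ∈ Icc 1 y, (((LvG_a G2 n : ℝ) : ℂ) * ee ((n : ℝ) * ((b : ℝ) / c)))
          * ee (t * Real.log n)) ^ 2 ≤ (x / L ^ K / 2) ^ 2 := by
        refine h1.trans ?_
        have h11 : (y : ℝ) * L ^ 2 * ∑ n ∈ Icc 1 y, LvG_a G2 n ^ 2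
            ≤ (y : ℝ) * L ^ 2 * ((y : ℝ) * (2 * L) * (C * L ^ k * Real.exp (-(L ^ (1 - s) / 22)))) :=
          mul_le_mul_of_nonneg_left h9 (by positivity)
        refine h11.trans ?_
        have h12 : (x / L ^ K / 2) ^ 2 = (x : ℝ) ^ 2 * (1 / (4 * L ^ (2 * K))) := by
          rw [pow_mul' L 2 K]
          field_simp
          ring
        rw [h12]
        have h13 : (y : ℝ) * L ^ 2 * ((y : ℝ) * (2 * L) * (C * L ^ k * Real.exp (-(L ^ (1 - s) / 22))))
            = (y : ℝ) ^ 2 * (2 * C * L ^ (k + 3) * Real.exp (-(L ^ (1 - s) / 22))) := by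
          rw [pow_add]
          ring
        rw [h13]
        refine mul_le_mul (pow_le_pow_left₀ hypos.le hyx' 2) ?_ (by positivity) (by positivity)
        rw [le_div_iff₀ (by positivity)]
        refine le_trans (le_of_eq ?_) a5
        rw [show k + 2 * K + 3 = (k + 3) + 2 * K by ring, pow_add L (k + 3) (2 * K)]
        ring
      exact le_of_sq_le_sq h10 (by positivity)
    rw [hsplit]
    refine (nrm_add η T Bs hBs _ _ (continuous_finsetSum _ hcA) (cont_poly _ _)).trans ?_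
    linarith only [hA, hB2]

end Pool.Agent.H43.CH
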